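import Mathlib

/-!
# The shape functions of the pairs of rods (Euclidean simplices in dimension three)

The rod is the pair of points at heights `p` and `q` on the third axis `L1`; `L2` is the line
through `(δ, 0, 0)` with direction `(0, b, a)`, `a ^ 2 + b ^ 2 = 1`.
-/

namespace Pool.Agent.H34.Simp3

/-- First coordinate of the point at height `p`, rotated about `L2` by the angle `t`. -/
noncomputable def c1 (δ _a b p t : ℝ) : ℝ := δ * (1 - Real.cos t) + p * b * Real.sin t

/-- Second coordinate. -/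
noncomputable def c2 (δ a b p t : ℝ) : ℝ := p * a * b * (1 - Real.cos t) - δ * a * Real.sin t

/-- Third coordinate. -/
noncomputable def c3 (δ a b p t : ℝ) : ℝ :=
  p * (a ^ 2 + b ^ 2 * Real.cos t) + δ * b * Real.sin t

/-- Square of the distance of the point at height `u`, rotated about `L2` by `t2`, and the point
at height `v`, rotated about `L2` by `t1` and then about the third axis by `s`. -/
noncomputable def dsq (δ a b u v : ℝ) (s t1 t2 : ℝ) : ℝ :=
  (c1 δ a b u t2 - (Real.cos s * c1 δ a b v t1 - Real.sin s * c2 δ a b v t1)) ^ 2 +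
  (c2 δ a b u t2 - (Real.sin s * c1 δ a b v t1 + Real.cos s * c2 δ a b v t1)) ^ 2 +
  (c3 δ a b u t2 - c3 δ a b v t1) ^ 2

/-- The shape: `τ = ((s, t1), t2)`. -/
noncomputable def Phi (δ a b p q : ℝ) (τ : (ℝ × ℝ) × ℝ) : (ℝ × ℝ) × ℝ :=
  ((dsq δ a b p p τ.1.1 τ.1.2 τ.2, dsq δ a b q p τ.1.1 τ.1.2 τ.2),
    dsq δ a b p q τ.1.1 τ.1.2 τ.2)

end Pool.Agent.H34.Simp3
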