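import Pool.Agent.H34.Simp3.Slice

/-!
# The two Cauchy-Schwarz steps
-/

open MeasureTheory Measure Metric Filter Topology
open scoped RealInnerProductSpace

namespace Pool.Agent.H34.Simp3

open Pool.Agent.H16.Simp

variable {d : ℕ} {C ε : ℝ} {f g : E d → ℝ} {l V : ℝ}

/-- The product of the deviations at the end points of a rod. -/
noncomputable def rod (f g : E d → ℝ) (l : ℝ) (p q : E d) (z : Rot d × E d) : ℝ :=
  fb (rr f g) l p z * fb (rr f g) l q z

theorem rod_meas (h : Good d C ε f g l V) (p q : E d) : Measurable (rod f g l p q) :=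
  (fbr_meas h p).mul (fbr_meas h q)

theorem rod_abs (h : Good d C ε f g l V) (p q : E d) (z : Rot d × E d) :
    |rod f g l p q z| ≤ 1 := by
  unfold rod
  rw [abs_mul]
  exact mul_le_one₀ (fbr_abs h p z) (abs_nonneg _) (fbr_abs h q z)

theorem rod_sq_int (h : Good d C ε f g l V) (p q : E d) :
    Integrable (fun z => rod f g l p q z ^ 2) (muRE d) ∧
      ∫ z, rod f g l p q z ^ 2 ∂(muRE d) ≤ 2 * V := by
  have h1 : ∀ z, rod f g l p q z ^ 2 ≤ fb (rr f g) l p z ^ 2 := by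
    intro z
    have a1 := fbr_abs h q z
    have a2 : fb (rr f g) l q z ^ 2 ≤ 1 := by
      rw [← sq_abs]
      exact pow_le_one₀ (abs_nonneg _) a1
    unfold rod
    rw [mul_pow]
    nlinarith [sq_nonneg (fb (rr f g) l p z)]
  have h2 : Integrable (fun z => rod f g l p q z ^ 2) (muRE d) := by
    refine dom_int ((rod_meas h p q).pow_const 2) (fbr_sq_int h p) ?_
    intro z
    rw [abs_of_nonneg (sq_nonneg _)]
    exact h1 z
  exact ⟨h2, (integral_mono h2 (fbr_sq_int h p) h1).trans (fbr_sq h p)⟩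

/-- One Cauchy-Schwarz step. -/
theorem cs_step (h : Good d C ε f g l V) {T : Type*} [MeasurableSpace T] (μ : Measure T)
    [IsFiniteMeasure μ] {X Y : T → E d} (hX : Measurable X) (hY : Measurable Y)
    {F : Rot d × E d → ℝ} (hF : Measurable F) (hF1 : ∀ z, |F z| ≤ 1)
    (hF2 : Integrable (fun z => F z ^ 2) (muRE d)) :
    (∫ t, (∫ z, F z * rod f g l (X t) (Y t) z ∂(muRE d)) ∂μ) ^ 2 ≤
      (∫ z, F z ^ 2 ∂(muRE d)) *
        ∫ x : T × T, I4 (rr f g) l (X x.1) (Y x.1) (X x.2) (Y x.2) ∂(μ.prod μ) := by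
  have hr := rr_meas h
  set P : T → Rot d × E d → ℝ := fun t z => rod f g l (X t) (Y t) z with hP
  have hPm : Measurable (Function.uncurry P) := by
    have m1 := fb_joint hr l hX
    have m2 := fb_joint hr l hY
    exact m1.mul m2
  have hPc : ∀ t z, |P t z| ≤ 1 := fun t z => rod_abs h _ _ z
  have hPi : Integrable (Function.uncurry P) (μ.prod (muRE d)) := by
    have h1 := (fb_joint_int (μ := μ) hr (rr_int h) l hX).norm
    refine h1.mono' hPm.aestronglyMeasurable (Eventually.of_forall fun x => ?_)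
    show ‖fb (rr f g) l (X x.1) x.2 * fb (rr f g) l (Y x.1) x.2‖ ≤
      ‖fb (rr f g) l (X x.1) x.2‖
    rw [norm_mul]
    exact mul_le_of_le_one_right (norm_nonneg _) (fbr_abs h _ _)
  obtain ⟨hD2, hDe⟩ := sq_avg (μ := μ) (ν := muRE d) hPm hPc hPi
  have e1 : ∫ t, (∫ z, F z * rod f g l (X t) (Y t) z ∂(muRE d)) ∂μ =
      ∫ z, F z * (∫ t, P t z ∂μ) ∂(muRE d) := avg_mul hF hPm hF1 hPi
  rw [e1]
  have h2 := csq hF.aestronglyMeasurable (avg_meas (μ := μ) hPm).aestronglyMeasurable hF2 hD2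
  rw [hDe] at h2
  exact h2

/-- The measure of a period. -/
noncomputable abbrev muP : Measure ℝ := volume.restrict (Set.Ioc 0 (2 * Real.pi))

theorem muP_univ : muP.real Set.univ = 2 * Real.pi := by
  rw [Measure.real, Measure.restrict_apply_univ, Real.volume_Ioc, sub_zero,
    ENNReal.toReal_ofReal (by positivity)]

theorem per_shift {φ : ℝ → ℝ} (hφ : Function.Periodic φ (2 * Real.pi)) (a : ℝ) :
    ∫ t, φ (t - a) ∂muP = ∫ t, φ t ∂muP := by
  have hpi : (0 : ℝ) ≤ 2 * Real.pi := by positivity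
  rw [← intervalIntegral.integral_of_le hpi, ← intervalIntegral.integral_of_le hpi,
    intervalIntegral.integral_comp_sub_right]
  have := hφ.intervalIntegral_add_eq (0 - a) 0
  rw [zero_add] at this
  rw [← this]
  congr 1
  ring

section chain

variable {X Y : ℝ → E d} {Xs Ys : ℝ → ℝ → E d}

/-- The first step, for a periodic family of rods. -/
theorem chain1 (h : Good d C ε f g l V) (hX : Measurable X) (hY : Measurable Y)
    (pX : Function.Periodic X (2 * Real.pi)) (pY : Function.Periodic Y (2 * Real.pi))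
    {F : Rot d × E d → ℝ} (hF : Measurable F) (hF1 : ∀ z, |F z| ≤ 1)
    (hF2 : Integrable (fun z => F z ^ 2) (muRE d)) (hFV : ∫ z, F z ^ 2 ∂(muRE d) ≤ V)
    (ha : ∀ t t', I4 (rr f g) l (X t) (Y t) (X t') (Y t') =
      I4 (rr f g) l (X (t - t')) (Y (t - t')) (X 0) (Y 0))
    (he : ∀ t, ∫ z, F z * rod f g l (X t) (Y t) z ∂(muRE d) =
      ∫ z, F z * rod f g l (X 0) (Y 0) z ∂(muRE d)) :
    2 * Real.pi * (∫ z, F z * rod f g l (X 0) (Y 0) z ∂(muRE d)) ^ 2 ≤
      V * ∫ t, I4 (rr f g) l (X t) (Y t) (X 0) (Y 0) ∂muP := by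
  have hV := h.V_pos
  have hpi : 0 < 2 * Real.pi := by positivity
  set c : ℝ := ∫ z, F z * rod f g l (X 0) (Y 0) z ∂(muRE d) with hc
  set φ : ℝ → ℝ := fun t => I4 (rr f g) l (X t) (Y t) (X 0) (Y 0) with hφ
  have hφp : Function.Periodic φ (2 * Real.pi) := by
    intro t
    simp only [hφ]
    rw [pX t, pY t]
  have h1 := cs_step h muP hX hY hF hF1 hF2
  simp_rw [he] at h1
  rw [integral_const, muP_univ, smul_eq_mul] at h1
  have hm : Measurable (fun x : ℝ × ℝ => φ (x.1 - x.2)) := by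
    have : Measurable φ := i4_meas h hX hY measurable_const measurable_const
    exact this.comp (measurable_fst.sub measurable_snd)
  have hi : Integrable (fun x : ℝ × ℝ => φ (x.1 - x.2)) (muP.prod muP) := by
    refine (integrable_const (2 * V)).mono' hm.aestronglyMeasurable
      (Eventually.of_forall fun x => ?_)
    exact i4_bound h _ _ _ _
  have e1 : ∫ x : ℝ × ℝ, I4 (rr f g) l (X x.1) (Y x.1) (X x.2) (Y x.2) ∂(muP.prod muP) =
      2 * Real.pi * ∫ t, φ t ∂muP := by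
    calc ∫ x : ℝ × ℝ, I4 (rr f g) l (X x.1) (Y x.1) (X x.2) (Y x.2) ∂(muP.prod muP) =
        ∫ x : ℝ × ℝ, φ (x.1 - x.2) ∂(muP.prod muP) :=
          integral_congr_ae (Eventually.of_forall fun x => ha x.1 x.2)
      _ = ∫ a, (∫ t, φ (t - a) ∂muP) ∂muP := integral_prod_symm _ hi
      _ = ∫ _a, (∫ t, φ t ∂muP) ∂muP := by
          refine integral_congr_ae (Eventually.of_forall fun a => ?_)
          exact per_shift hφp a
      _ = 2 * Real.pi * ∫ t, φ t ∂muP := by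
          rw [integral_const, muP_univ, smul_eq_mul]
  rw [e1] at h1
  have hI0 : 0 ≤ 2 * Real.pi * ∫ t, φ t ∂muP := by
    by_contra hneg
    push Not at hneg
    have h2 : 0 ≤ ∫ z, F z ^ 2 ∂(muRE d) := integral_nonneg fun z => sq_nonneg _
    rcases h2.eq_or_lt with h3 | h3
    · -- the second moment is nonnegative in any case
      have h4 := (sq_avg (μ := muP) (ν := muRE d) (p := fun t z => rod f g l (X t) (Y t) z)
        (c := 1) (by
          have m1 := fb_joint (rr_meas h) l hX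
          have m2 := fb_joint (rr_meas h) l hY
          exact m1.mul m2) (fun t z => rod_abs h _ _ z) (by
          have h1 := (fb_joint_int (μ := muP) (rr_meas h) (rr_int h) l hX).norm
          have m1 := fb_joint (rr_meas h) l hX
          have m2 := fb_joint (rr_meas h) l hY
          refine h1.mono' (m1.mul m2).aestronglyMeasurable (Eventually.of_forall fun x => ?_)
          show ‖fb (rr f g) l (X x.1) x.2 * fb (rr f g) l (Y x.1) x.2‖ ≤
            ‖fb (rr f g) l (X x.1) x.2‖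
          rw [norm_mul]
          exact mul_le_of_le_one_right (norm_nonneg _) (fbr_abs h _ _))).2
      have h5 : 0 ≤ ∫ x : ℝ × ℝ, I4 (rr f g) l (X x.1) (Y x.1) (X x.2) (Y x.2)
          ∂(muP.prod muP) := by
        have h6 : 0 ≤ ∫ z, (∫ t, rod f g l (X t) (Y t) z ∂muP) ^ 2 ∂(muRE d) :=
          integral_nonneg fun z => sq_nonneg _
        rw [h4] at h6
        exact h6
      rw [e1] at h5
      linarith
    · nlinarith [sq_nonneg (2 * Real.pi * c)]
  have h3 : (2 * Real.pi * c) ^ 2 ≤ V * (2 * Real.pi * ∫ t, φ t ∂muP) :=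
    h1.trans (mul_le_mul_of_nonneg_right hFV hI0)
  have h4 : 2 * Real.pi * (2 * Real.pi * c ^ 2) ≤ 2 * Real.pi * (V * ∫ t, φ t ∂muP) := by
    calc 2 * Real.pi * (2 * Real.pi * c ^ 2) = (2 * Real.pi * c) ^ 2 := by ring
      _ ≤ V * (2 * Real.pi * ∫ t, φ t ∂muP) := h3
      _ = _ := by ring
  exact le_of_mul_le_mul_left h4 hpi

/-- The second step. -/
theorem chain2 (h : Good d C ε f g l V) (hX : Measurable X) (hY : Measurable Y)
    (hXs : Measurable (fun x : ℝ × ℝ => Xs x.1 x.2))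
    (hYs : Measurable (fun x : ℝ × ℝ => Ys x.1 x.2))
    (pXs : ∀ s t, Xs (s + 2 * Real.pi) t = Xs s t)
    (pYs : ∀ s t, Ys (s + 2 * Real.pi) t = Ys s t)
    (hb : ∀ s t, I4 (rr f g) l (X t) (Y t) (X 0) (Y 0) =
      I4 (rr f g) l (X 0) (Y 0) (Xs s t) (Ys s t))
    (hc : ∀ s t s' t', I4 (rr f g) l (Xs s t) (Ys s t) (Xs s' t') (Ys s' t') =
      I4 (rr f g) l (Xs (s - s') t) (Ys (s - s') t) (X t') (Y t')) :
    2 * Real.pi * (∫ t, I4 (rr f g) l (X t) (Y t) (X 0) (Y 0) ∂muP) ^ 2 ≤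
      2 * V * |∫ τ : (ℝ × ℝ) × ℝ, I4 (rr f g) l (Xs τ.1.1 τ.1.2) (Ys τ.1.1 τ.1.2) (X τ.2)
        (Y τ.2) ∂((muP.prod muP).prod muP)| := by
  have hV := h.V_pos
  have hpi : 0 < 2 * Real.pi := by positivity
  set Q : ℝ := ∫ t, I4 (rr f g) l (X t) (Y t) (X 0) (Y 0) ∂muP with hQ
  have h1 := cs_step h (muP.prod muP) hXs hYs (rod_meas h (X 0) (Y 0))
    (rod_abs h (X 0) (Y 0)) (rod_sq_int h (X 0) (Y 0)).1
  have e0 : ∀ x : ℝ × ℝ, ∫ z, rod f g l (X 0) (Y 0) z * rod f g l (Xs x.1 x.2) (Ys x.1 x.2) z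
      ∂(muRE d) = I4 (rr f g) l (X x.2) (Y x.2) (X 0) (Y 0) := by
    intro x
    rw [hb x.1 x.2]
    rfl
  simp_rw [e0] at h1
  have e1 : ∫ x : ℝ × ℝ, I4 (rr f g) l (X x.2) (Y x.2) (X 0) (Y 0) ∂(muP.prod muP) =
      2 * Real.pi * Q := by
    have := integral_fun_snd (μ := muP) (ν := muP)
      (fun t => I4 (rr f g) l (X t) (Y t) (X 0) (Y 0))
    rw [this, muP_univ, smul_eq_mul]
  rw [e1] at h1
  set χ : (ℝ × ℝ) × ℝ → ℝ := fun τ => I4 (rr f g) l (Xs τ.1.1 τ.1.2) (Ys τ.1.1 τ.1.2) (X τ.2)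
        (Y τ.2) with hχ
  have hχm : Measurable χ := i4_meas h (hXs.comp measurable_fst) (hYs.comp measurable_fst)
    (hX.comp measurable_snd) (hY.comp measurable_snd)
  have hχb : ∀ τ, |χ τ| ≤ 2 * V := fun τ => i4_bound h _ _ _ _
  have hχp : ∀ t t', Function.Periodic (fun s => χ ((s, t), t')) (2 * Real.pi) := by
    intro t t' s
    simp only [hχ]
    rw [pXs, pYs]
  have bint : ∀ {T : Type} [MeasurableSpace T] (μ : Measure T) [IsFiniteMeasure μ]
      (u : T → (ℝ × ℝ) × ℝ), Measurable u → Integrable (fun x => χ (u x)) μ := by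
    intro T _ μ _ u hu
    refine (integrable_const (2 * V)).mono' (hχm.comp hu).aestronglyMeasurable
      (Eventually.of_forall fun x => ?_)
    exact hχb _
  have e2 : ∫ x : (ℝ × ℝ) × (ℝ × ℝ), I4 (rr f g) l (Xs x.1.1 x.1.2) (Ys x.1.1 x.1.2)
      (Xs x.2.1 x.2.2) (Ys x.2.1 x.2.2) ∂((muP.prod muP).prod (muP.prod muP)) =
      2 * Real.pi * ∫ τ, χ τ ∂((muP.prod muP).prod muP) := by
    have m1 : Measurable (fun x : (ℝ × ℝ) × (ℝ × ℝ) => ((x.1.1 - x.2.1, x.1.2), x.2.2)) :=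
      ((measurable_fst.fst.sub measurable_snd.fst).prodMk measurable_fst.snd).prodMk
        measurable_snd.snd
    have i1 := bint ((muP.prod muP).prod (muP.prod muP)) _ m1
    calc _ = ∫ x : (ℝ × ℝ) × (ℝ × ℝ), χ ((x.1.1 - x.2.1, x.1.2), x.2.2)
          ∂((muP.prod muP).prod (muP.prod muP)) :=
          integral_congr_ae (Eventually.of_forall fun x => hc _ _ _ _)
      _ = ∫ y : ℝ × ℝ, (∫ x : ℝ × ℝ, χ ((x.1 - y.1, x.2), y.2) ∂(muP.prod muP))
            ∂(muP.prod muP) := integral_prod_symm _ i1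
      _ = ∫ y : ℝ × ℝ, (∫ x : ℝ × ℝ, χ ((x.1, x.2), y.2) ∂(muP.prod muP))
            ∂(muP.prod muP) := by
          refine integral_congr_ae (Eventually.of_forall fun y => ?_)
          show ∫ x : ℝ × ℝ, χ ((x.1 - y.1, x.2), y.2) ∂(muP.prod muP) =
            ∫ x : ℝ × ℝ, χ ((x.1, x.2), y.2) ∂(muP.prod muP)
          have m2 : Measurable (fun x : ℝ × ℝ => ((x.1 - y.1, x.2), y.2)) :=
            ((measurable_fst.sub measurable_const).prodMk measurable_snd).prodMk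
              measurable_const
          have m3 : Measurable (fun x : ℝ × ℝ => ((x.1, x.2), y.2)) :=
            (measurable_fst.prodMk measurable_snd).prodMk measurable_const
          rw [integral_prod_symm _ (bint _ _ m2), integral_prod_symm _ (bint _ _ m3)]
          refine integral_congr_ae (Eventually.of_forall fun t => ?_)
          exact per_shift (hχp t y.2) y.1
      _ = 2 * Real.pi * ∫ b, (∫ x : ℝ × ℝ, χ ((x.1, x.2), b) ∂(muP.prod muP)) ∂muP := by
          have := integral_fun_snd (μ := muP) (ν := muP)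
            (fun b => ∫ x : ℝ × ℝ, χ ((x.1, x.2), b) ∂(muP.prod muP))
          rw [this, muP_univ, smul_eq_mul]
      _ = 2 * Real.pi * ∫ τ, χ τ ∂((muP.prod muP).prod muP) := by
          rw [integral_prod_symm (fun τ => χ τ) (bint _ _ measurable_id)]
  rw [e2] at h1
  obtain ⟨-, h2⟩ := rod_sq_int h (X 0) (Y 0)
  have h3 : 0 ≤ ∫ z, rod f g l (X 0) (Y 0) z ^ 2 ∂(muRE d) := integral_nonneg fun z => sq_nonneg _
  set J : ℝ := ∫ τ, χ τ ∂((muP.prod muP).prod muP) with hJ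
  have h4 : (2 * Real.pi * Q) ^ 2 ≤ 2 * V * (2 * Real.pi * |J|) := by
    calc (2 * Real.pi * Q) ^ 2 ≤ (∫ z, rod f g l (X 0) (Y 0) z ^ 2 ∂(muRE d)) *
          (2 * Real.pi * J) := h1
      _ ≤ (∫ z, rod f g l (X 0) (Y 0) z ^ 2 ∂(muRE d)) * (2 * Real.pi * |J|) :=
          mul_le_mul_of_nonneg_left (mul_le_mul_of_nonneg_left (le_abs_self _) hpi.le) h3
      _ ≤ 2 * V * (2 * Real.pi * |J|) :=
          mul_le_mul_of_nonneg_right h2 (by positivity)
  have h5 : 2 * Real.pi * (2 * Real.pi * Q ^ 2) ≤ 2 * Real.pi * (2 * V * |J|) := by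
    calc 2 * Real.pi * (2 * Real.pi * Q ^ 2) = (2 * Real.pi * Q) ^ 2 := by ring
      _ ≤ 2 * V * (2 * Real.pi * |J|) := h4
      _ = _ := by ring
  exact le_of_mul_le_mul_left h5 hpi

/-- Both steps. -/
theorem chain (h : Good d C ε f g l V) (hX : Measurable X) (hY : Measurable Y)
    (hXs : Measurable (fun x : ℝ × ℝ => Xs x.1 x.2))
    (hYs : Measurable (fun x : ℝ × ℝ => Ys x.1 x.2))
    (pX : Function.Periodic X (2 * Real.pi)) (pY : Function.Periodic Y (2 * Real.pi))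
    (pXs : ∀ s t, Xs (s + 2 * Real.pi) t = Xs s t)
    (pYs : ∀ s t, Ys (s + 2 * Real.pi) t = Ys s t)
    {F : Rot d × E d → ℝ} (hF : Measurable F) (hF1 : ∀ z, |F z| ≤ 1)
    (hF2 : Integrable (fun z => F z ^ 2) (muRE d)) (hFV : ∫ z, F z ^ 2 ∂(muRE d) ≤ V)
    (ha : ∀ t t', I4 (rr f g) l (X t) (Y t) (X t') (Y t') =
      I4 (rr f g) l (X (t - t')) (Y (t - t')) (X 0) (Y 0))
    (he : ∀ t, ∫ z, F z * rod f g l (X t) (Y t) z ∂(muRE d) =
      ∫ z, F z * rod f g l (X 0) (Y 0) z ∂(muRE d))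
    (hb : ∀ s t, I4 (rr f g) l (X t) (Y t) (X 0) (Y 0) =
      I4 (rr f g) l (X 0) (Y 0) (Xs s t) (Ys s t))
    (hc : ∀ s t s' t', I4 (rr f g) l (Xs s t) (Ys s t) (Xs s' t') (Ys s' t') =
      I4 (rr f g) l (Xs (s - s') t) (Ys (s - s') t) (X t') (Y t'))
    {η : ℝ} (hη : 0 < η)
    (hJ : |∫ τ : (ℝ × ℝ) × ℝ, I4 (rr f g) l (Xs τ.1.1 τ.1.2) (Ys τ.1.1 τ.1.2) (X τ.2)
        (Y τ.2) ∂((muP.prod muP).prod muP)| ≤ η ^ 4 * V) :
    |∫ z, F z * rod f g l (X 0) (Y 0) z ∂(muRE d)| ≤ η * V := by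
  have hV := h.V_pos
  have h1 := chain1 h hX hY pX pY hF hF1 hF2 hFV ha he
  have h2 := chain2 h hX hY hXs hYs pXs pYs hb hc
  set c : ℝ := ∫ z, F z * rod f g l (X 0) (Y 0) z ∂(muRE d) with hcdef
  set Q : ℝ := ∫ t, I4 (rr f g) l (X t) (Y t) (X 0) (Y 0) ∂muP with hQ
  have hpi := Real.pi_gt_three
  have h3 : Q ^ 2 ≤ (η ^ 2 * V) ^ 2 := by
    have h4 : 2 * V * |∫ τ : (ℝ × ℝ) × ℝ, I4 (rr f g) l (Xs τ.1.1 τ.1.2) (Ys τ.1.1 τ.1.2)
        (X τ.2) (Y τ.2) ∂((muP.prod muP).prod muP)| ≤ 2 * V * (η ^ 4 * V) :=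
      mul_le_mul_of_nonneg_left hJ (by positivity)
    have h5 : 2 * Q ^ 2 ≤ 2 * Real.pi * Q ^ 2 := by nlinarith [sq_nonneg Q]
    nlinarith
  have h6 : |Q| ≤ η ^ 2 * V := abs_le_of_sq_le_sq h3 (by positivity)
  have h7 : c ^ 2 ≤ (η * V) ^ 2 := by
    have h8 : V * Q ≤ V * (η ^ 2 * V) :=
      mul_le_mul_of_nonneg_left ((le_abs_self Q).trans h6) hV.le
    have h9 : c ^ 2 ≤ 2 * Real.pi * c ^ 2 := by nlinarith [sq_nonneg c]
    nlinarith
  exact abs_le_of_sq_le_sq h7 (by positivity)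

end chain

end Pool.Agent.H34.Simp3
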