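import Pool.Agent.H34.Simp3.Slice2

/-!
# The slice theorem
-/

open MeasureTheory Measure Metric Filter Topology
open scoped RealInnerProductSpace

namespace Pool.Agent.H34.Simp3

open Pool.Agent.H16.Simp

variable {d : ℕ}

/-- The box. -/
def inBox (M : ℝ) (y : P3) : Prop :=
  (y.1.1 ∈ Set.Icc (-M) M ∧ y.1.2 ∈ Set.Icc (-M) M) ∧ y.2 ∈ Set.Icc (-M) M

/-- The average over a set is small. -/
def Small (d : ℕ) (Φ : P3 → P3) (w : P3 → E d) (p q : E d) (s : ℝ × ℝ → E d) (D : Set P3) :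
    Prop :=
  ∀ σ : ℝ, 0 < σ → Ev d (fun f g l V =>
    |∫ τ in D, I4 (rr f g) l p q (s (Φ τ).1) (w τ)| ≤ σ * V)

section

variable {Φ : P3 → P3} (hΦ : ContDiff ℝ 1 Φ) {w : P3 → E d} (hw : Measurable w)
  (hwc : ∀ τ τ', (Φ τ).1 = (Φ τ').1 → w τ = w τ' → Φ τ = Φ τ')
  (p q : E d) {s : ℝ × ℝ → E d} (hs : Measurable s)

include hΦ hw hwc hs

theorem ev_piece {D : Set P3} (hD : MeasurableSet D) {M : ℝ} (hM : ∀ τ ∈ D, inBox M (Φ τ))
    (hinj : Set.InjOn Φ D) {c : ℝ} (hc : 0 < c) (hdet : ∀ τ ∈ D, c ≤ |(fderiv ℝ Φ τ).det|) :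
    Small d Φ w p q s D := by
  intro σ hσ
  obtain ⟨κ, w', hκm, hwm, hκ0, hκ1, hκ2, hint⟩ := push hΦ (0 : E d) hw hD hinj hc hdet
  have hbox : ∀ y, κ y ≠ 0 → (y.1.1 ∈ Set.Icc (-M) M ∧ y.1.2 ∈ Set.Icc (-M) M) ∧
      y.2 ∈ Set.Icc (-M) M := by
    intro y hy
    obtain ⟨τ, hτ, h1, -⟩ := hκ2 y hy
    have := hM τ hτ
    rw [h1] at this
    exact this
  have hsep : ∀ α c c', κ (α, c) ≠ 0 → κ (α, c') ≠ 0 → w' (α, c) = w' (α, c') → c = c' := by
    intro α c c' h1 h2 h3
    obtain ⟨τ, hτ, h4, h5⟩ := hκ2 _ h1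
    obtain ⟨τ', hτ', h6, h7⟩ := hκ2 _ h2
    have h8 : Φ τ = Φ τ' := by
      apply hwc
      · rw [h4, h6]
      · rw [← h5, ← h7, h3]
    rw [h4, h6] at h8
    exact (Prod.mk.inj h8).2
  refine (ev_total hκm hwm hκ0 hκ1 hbox hsep p q hs hσ).mono ?_
  intro f g l V C ε h h1
  have h2 := hint (fun x => I4 (rr f g) l p q (s x.1) x.2)
  rw [h2]
  exact h1

omit hwc in
theorem theta_meas {C ε : ℝ} {f g : E d → ℝ} {l V : ℝ} (h : Good d C ε f g l V) :
    Measurable (fun τ => I4 (rr f g) l p q (s (Φ τ).1) (w τ)) :=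
  i4_meas h measurable_const measurable_const
    (hs.comp (measurable_fst.comp hΦ.continuous.measurable)) hw

omit hwc in
theorem theta_int {C ε : ℝ} {f g : E d → ℝ} {l V : ℝ} (h : Good d C ε f g l V)
    {D : Set P3} (hf : volume D ≠ ⊤) :
    IntegrableOn (fun τ => I4 (rr f g) l p q (s (Φ τ).1) (w τ)) D := by
  have : IsFiniteMeasure (volume.restrict D) := ⟨by
    rw [Measure.restrict_apply_univ]
    exact lt_top_iff_ne_top.2 hf⟩
  refine (integrable_const (2 * V)).mono' (theta_meas hΦ hw p q hs h).aestronglyMeasurable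
    (Eventually.of_forall fun τ => ?_)
  exact i4_bound h _ _ _ _

/-- The slice theorem. -/
theorem slice {D K : Set P3} (hD : MeasurableSet D) (hK : IsCompact K) (hDK : D ⊆ K)
    (hdet : ∀ᵐ τ : P3, (fderiv ℝ Φ τ).det ≠ 0) : Small d Φ w p q s D := by
  obtain ⟨W, hW1, hW2, hW3, hW4⟩ := pieces hΦ
  -- the bound of the image
  obtain ⟨M, hM⟩ : ∃ M : ℝ, ∀ τ ∈ D, inBox M (Φ τ) := by
    have h1 := hK.image hΦ.continuous
    obtain ⟨M, hM⟩ := h1.isBounded.exists_norm_le
    refine ⟨M, fun τ hτ => ?_⟩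
    have h2 : ‖Φ τ‖ ≤ M := hM _ ⟨τ, hDK hτ, rfl⟩
    rw [Prod.norm_def, Prod.norm_def] at h2
    have h3 := (le_max_left _ _).trans h2
    have h4 := (le_max_left _ _).trans h3
    have h5 := (le_max_right _ _).trans h3
    have h6 := (le_max_right _ _).trans h2
    rw [Real.norm_eq_abs, abs_le] at h4 h5 h6
    exact ⟨⟨h4, h5⟩, h6⟩
  have hDf : volume D ≠ ⊤ := ne_top_of_le_ne_top hK.measure_lt_top.ne (measure_mono hDK)
  set Z : ℕ → Set P3 := fun N => D ∩ ⋃ n ∈ Finset.range N, W n with hZ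
  have hZm : ∀ N, MeasurableSet (Z N) := fun N =>
    hD.inter (Finset.measurableSet_biUnion _ fun n _ => (hW1 n).measurableSet)
  have hZD : ∀ N, Z N ⊆ D := fun N => Set.inter_subset_left
  have hZf : ∀ N, volume (Z N) ≠ ⊤ := fun N => ne_top_of_le_ne_top hDf (measure_mono (hZD N))
  have step : ∀ N, Small d Φ w p q s (Z N) := by
    intro N
    induction N with
    | zero =>
        intro σ hσ
        refine Ev.of_forall ?_
        intro f g l V C ε h
        have : Z 0 = ∅ := by simp [hZ]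
        rw [this]
        have hV := h.V_pos
        simp only [Measure.restrict_empty, integral_zero_measure, abs_zero]
        positivity
    | succ N ih =>
        intro σ hσ
        obtain ⟨c, hc, hcd⟩ := hW3 N
        have hpm : MeasurableSet ((D ∩ W N) \ Z N) :=
          (hD.inter (hW1 N).measurableSet).diff (hZm N)
        have hp := ev_piece hΦ hw hwc p q hs hpm (M := M)
          (fun τ hτ => hM τ hτ.1.1) ((hW2 N).mono (fun τ hτ => hτ.1.2)) hc
          (fun τ hτ => hcd τ hτ.1.2) (σ / 2) (half_pos hσ)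
        refine ((ih (σ / 2) (half_pos hσ)).and hp).mono ?_
        intro f g l V C ε h ⟨h1, h2⟩
        have e1 : Z (N + 1) = Z N ∪ ((D ∩ W N) \ Z N) := by
          rw [Set.union_sdiff_self]
          simp only [hZ]
          rw [← Set.inter_union_distrib_left]
          congr 1
          rw [Finset.range_add_one, Finset.set_biUnion_insert, Set.union_comm]
        have hpf : volume ((D ∩ W N) \ Z N) ≠ ⊤ := ne_top_of_le_ne_top hDf
          (measure_mono (fun τ hτ => hτ.1.1))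
        rw [e1, setIntegral_union Set.disjoint_sdiff_right hpm
          (theta_int hΦ hw p q hs h (hZf N)) (theta_int hΦ hw p q hs h hpf)]
        refine (abs_add_le _ _).trans ?_
        linarith
  -- exhaustion
  have hmono : Monotone Z := by
    intro a b hab τ hτ
    refine ⟨hτ.1, ?_⟩
    have h1 := hτ.2
    simp only [Set.mem_iUnion, Finset.mem_range] at h1 ⊢
    obtain ⟨n, hn, h2⟩ := h1
    exact ⟨n, by omega, h2⟩
  have hlim : Tendsto (fun N => volume (D \ Z N)) atTop (𝓝 0) := by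
    have h1 : volume (⋂ N, D \ Z N) = 0 := by
      apply measure_mono_null _ (ae_iff.1 hdet)
      intro τ hτ
      rw [Set.mem_iInter] at hτ
      intro h2
      obtain ⟨n, hn⟩ := Set.mem_iUnion.1 (hW4 h2)
      apply (hτ (n + 1)).2
      refine ⟨(hτ 0).1, ?_⟩
      simp only [Set.mem_iUnion, Finset.mem_range]
      exact ⟨n, by omega, hn⟩
    rw [← h1]
    apply tendsto_measure_iInter_atTop
    · exact fun N => (hD.diff (hZm N)).nullMeasurableSet
    · intro a b hab
      exact Set.sdiff_subset_sdiff_right (hmono hab)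
    · exact ⟨0, ne_top_of_le_ne_top hDf (measure_mono Set.sdiff_subset)⟩
  intro σ hσ
  have h1 := hlim.eventually (gt_mem_nhds (show (0 : ENNReal) < ENNReal.ofReal (σ / 4) by
    rw [ENNReal.ofReal_pos]
    positivity))
  obtain ⟨N, hN⟩ := h1.exists
  refine (step N (σ / 2) (half_pos hσ)).mono ?_
  intro f g l V C ε h h2
  have hV := h.V_pos
  have e1 : D = Z N ∪ (D \ Z N) := by
    rw [Set.union_sdiff_self, Set.union_eq_self_of_subset_left (hZD N)]
  have hpf : volume (D \ Z N) ≠ ⊤ := ne_top_of_le_ne_top hDf (measure_mono Set.sdiff_subset)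
  have e2 : ∫ τ in D, I4 (rr f g) l p q (s (Φ τ).1) (w τ) =
      (∫ τ in Z N, I4 (rr f g) l p q (s (Φ τ).1) (w τ)) +
        ∫ τ in D \ Z N, I4 (rr f g) l p q (s (Φ τ).1) (w τ) := by
    conv_lhs => rw [e1]
    exact setIntegral_union Set.disjoint_sdiff_right (hD.diff (hZm N))
      (theta_int hΦ hw p q hs h (hZf N)) (theta_int hΦ hw p q hs h hpf)
  rw [e2]
  have h3 : |∫ τ in D \ Z N, I4 (rr f g) l p q (s (Φ τ).1) (w τ)| ≤
      (2 * V) * (volume (D \ Z N)).toReal := by
    have := norm_setIntegral_le_of_norm_le_const (μ := volume) (s := D \ Z N)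
      (f := fun τ => I4 (rr f g) l p q (s (Φ τ).1) (w τ)) (C := 2 * V)
      (lt_top_iff_ne_top.2 hpf) (fun τ _ => i4_bound h _ _ _ _)
    exact this
  have h4 : (volume (D \ Z N)).toReal ≤ σ / 4 := by
    have := ENNReal.toReal_mono ENNReal.ofReal_ne_top hN.le
    rwa [ENNReal.toReal_ofReal (by positivity)] at this
  refine (abs_add_le _ _).trans ?_
  nlinarith

end

end Pool.Agent.H34.Simp3
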