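import Pool.Agent.H16.Simp4.Fr
import Pool.Agent.H16.Simp4.Aux3
import Pool.Agent.H67.Simp3.Jac
import Pool.Agent.H34.Simp3.Slice3
import Pool.Agent.H34.Simp3.Chain

/-!
# Assembly: full simplices in dimension three
-/

open MeasureTheory Measure Metric Filter Topology
open scoped RealInnerProductSpace

namespace Pool.Agent.H34.Simp3

open Pool.Agent.H16.Simp

/-! ### The rotations -/

theorem rz_per (s : ℝ) : rz (s + 2 * Real.pi) = rz s := by
  apply rot_ext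
  intro w
  rw [act_rz, act_rz, Real.cos_add_two_pi, Real.sin_add_two_pi]

theorem K_per (δ a b : ℝ) (h : a ^ 2 + b ^ 2 = 1) (t : ℝ) (v : E 3) :
    K δ a b h (t + 2 * Real.pi) v = K δ a b h t v := by
  unfold K rk
  rw [rz_per]

theorem cont_K_comp (δ a b : ℝ) (h : a ^ 2 + b ^ 2 = 1) {X : Type*} [TopologicalSpace X]
    {f : X → ℝ} {g : X → E 3} (hf : Continuous f) (hg : Continuous g) :
    Continuous (fun x => K δ a b h (f x) (g x)) := by
  have h1 := (continuous_K δ a b h).comp (hf.prodMk hg)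
  exact h1

theorem cont_rz_comp {X : Type*} [TopologicalSpace X]
    {f : X → ℝ} {g : X → E 3} (hf : Continuous f) (hg : Continuous g) :
    Continuous (fun x => act (rz (f x)) (g x)) := by
  have h1 := continuous_rz.comp (hf.prodMk hg)
  exact h1

theorem K_I4 {k : E 3 → ℝ} (hk : Measurable k) (l : ℝ) (δ a b : ℝ) (h : a ^ 2 + b ^ 2 = 1)
    (t : ℝ) (v1 v2 v3 v4 : E 3) : I4 k l (K δ a b h t v1) (K δ a b h t v2) (K δ a b h t v3)
      (K δ a b h t v4) = I4 k l v1 v2 v3 v4 :=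
  I4_mv hk l (rk a b h t) !₂[δ, 0, 0] v1 v2 v3 v4

theorem rot_I4 {k : E 3 → ℝ} (hk : Measurable k) (l : ℝ) (U : Rot 3) (v1 v2 v3 v4 : E 3) :
    I4 k l (act U v1) (act U v2) (act U v3) (act U v4) = I4 k l v1 v2 v3 v4 := by
  have e1 := I4_flow hk l U 0 v1 v2 v3 v4
  rw [add_zero, add_zero, add_zero, add_zero] at e1
  exact e1

/-- The flow of the rotation about the second line. -/
noncomputable def Kt (l δ a b : ℝ) (h : a ^ 2 + b ^ 2 = 1) (t : ℝ) (z : Rot 3 × E 3) :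
    Rot 3 × E 3 :=
  (z.1 * rk a b h t, z.2 + l • act z.1 (!₂[δ, 0, 0] - act (rk a b h t) !₂[δ, 0, 0]))

theorem Kt_mp (l δ a b : ℝ) (h : a ^ 2 + b ^ 2 = 1) (t : ℝ) :
    MeasurePreserving (Kt l δ a b h t) (muRE 3) (muRE 3) :=
  mp_flow l (rk a b h t) (!₂[δ, 0, 0] - act (rk a b h t) !₂[δ, 0, 0])

theorem Kt_fb (l δ a b : ℝ) (h : a ^ 2 + b ^ 2 = 1) (t : ℝ) (k : E 3 → ℝ) (v : E 3)
    (z : Rot 3 × E 3) : fb k l v (Kt l δ a b h t z) = fb k l (K δ a b h t v) z := by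
  unfold Kt
  rw [fb_flow]
  rfl

theorem K_dist (δ a b : ℝ) (h : a ^ 2 + b ^ 2 = 1) (t : ℝ) (v w : E 3) :
    ‖K δ a b h t v - K δ a b h t w‖ = ‖v - w‖ := by
  unfold K
  rw [mv_eq, mv_eq, add_sub_add_left_eq_sub, ← act_sub, norm_act]
  congr 1
  abel

theorem K_inv (δ a b : ℝ) (h : a ^ 2 + b ^ 2 = 1) (t : ℝ) (v : E 3) :
    K δ a b h t (K δ a b h (-t) v) = v := by
  rw [K_add, add_neg_cancel, K_zero]

theorem rz_axis (s p : ℝ) : act (rz s) (!₂[0, 0, p] : E 3) = !₂[0, 0, p] := by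
  rw [act_rz]
  ext i
  fin_cases i <;> simp

theorem ru_axis (u v : ℝ) (h : u ^ 2 + v ^ 2 = 1) (p : ℝ) :
    act (ru u v h) (!₂[0, 0, p] : E 3) = !₂[0, 0, p] := by
  rw [act_ru]
  ext i
  fin_cases i <;> simp

theorem act_dist (U : Rot 3) (v w : E 3) : ‖act U v - act U w‖ = ‖v - w‖ := by
  rw [← act_sub, norm_act]

/-! ### The normalisation -/

/-- The base point of the rod, seen from the other rod. -/
noncomputable def nv (δ a b : ℝ) (h : a ^ 2 + b ^ 2 = 1) (p : ℝ) (τ : P3) : E 3 :=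
  K δ a b h (-τ.2) (act (rz τ.1.1) (K δ a b h τ.1.2 !₂[0, 0, p]))

/-- Distance from the axis. -/
noncomputable def rad (z : E 3) : ℝ := Real.sqrt (z 0 ^ 2 + z 1 ^ 2)

theorem rad_sq (z : E 3) : rad z ^ 2 = z 0 ^ 2 + z 1 ^ 2 :=
  Real.sq_sqrt (by positivity)

theorem rad_nonneg (z : E 3) : 0 ≤ rad z := Real.sqrt_nonneg _

/-- Cosine of the normalising rotation. -/
noncomputable def nu (z : E 3) : ℝ := if rad z = 0 then 1 else z 0 / rad z

/-- Sine of the normalising rotation. -/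
noncomputable def nw (z : E 3) : ℝ := if rad z = 0 then 0 else -(z 1) / rad z

theorem nu_nw (z : E 3) : nu z ^ 2 + nw z ^ 2 = 1 := by
  unfold nu nw
  by_cases h : rad z = 0
  · simp [h]
  · rw [if_neg h, if_neg h, div_pow, div_pow, ← add_div, neg_sq, ← rad_sq, div_self]
    exact pow_ne_zero 2 h

theorem norm_z (z : E 3) : act (ru (nu z) (nw z) (nu_nw z)) z = !₂[rad z, 0, z 2] := by
  rw [act_ru]
  by_cases h : rad z = 0
  · have h1 := rad_sq z
    rw [h] at h1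
    have h2 : z 0 = 0 := by nlinarith [sq_nonneg (z 0), sq_nonneg (z 1)]
    have h3 : z 1 = 0 := by nlinarith [sq_nonneg (z 0), sq_nonneg (z 1)]
    rw [h2, h3, h]
    simp
  · have h1 := rad_sq z
    have e1 : nu z * z 0 - nw z * z 1 = rad z := by
      unfold nu nw
      rw [if_neg h, if_neg h]
      field_simp
      linarith
    have e2 : nw z * z 0 + nu z * z 1 = 0 := by
      unfold nu nw
      rw [if_neg h, if_neg h]
      field_simp
      ring
    rw [e1, e2]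

/-- The normal position of the third vertex, as a function of the two squared distances. -/
noncomputable def zt (p q : ℝ) (α : ℝ × ℝ) : E 3 :=
  !₂[Real.sqrt (α.1 - ((α.1 - α.2 + q ^ 2 - p ^ 2) / (2 * (q - p)) - p) ^ 2), 0,
    (α.1 - α.2 + q ^ 2 - p ^ 2) / (2 * (q - p))]

theorem zt_eq {p q : ℝ} (hpq : p ≠ q) (z : E 3) :
    zt p q (‖(!₂[0, 0, p] : E 3) - z‖ ^ 2, ‖(!₂[0, 0, q] : E 3) - z‖ ^ 2) =
      !₂[rad z, 0, z 2] := by
  have hqp : q - p ≠ 0 := sub_ne_zero.2 hpq.symm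
  have h1 : ‖(!₂[0, 0, p] : E 3) - z‖ ^ 2 = rad z ^ 2 + (z 2 - p) ^ 2 := by
    rw [nsq3, rad_sq]
    simp
    ring
  have h2 : ‖(!₂[0, 0, q] : E 3) - z‖ ^ 2 = rad z ^ 2 + (z 2 - q) ^ 2 := by
    rw [nsq3, rad_sq]
    simp
    ring
  have e1 : (‖(!₂[0, 0, p] : E 3) - z‖ ^ 2 - ‖(!₂[0, 0, q] : E 3) - z‖ ^ 2 + q ^ 2 - p ^ 2) /
      (2 * (q - p)) = z 2 := by
    rw [h1, h2]
    field_simp
    ring
  unfold zt
  show (!₂[Real.sqrt (‖(!₂[0, 0, p] : E 3) - z‖ ^ 2 - ((‖(!₂[0, 0, p] : E 3) - z‖ ^ 2 -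
    ‖(!₂[0, 0, q] : E 3) - z‖ ^ 2 + q ^ 2 - p ^ 2) / (2 * (q - p)) - p) ^ 2), 0,
    (‖(!₂[0, 0, p] : E 3) - z‖ ^ 2 - ‖(!₂[0, 0, q] : E 3) - z‖ ^ 2 + q ^ 2 - p ^ 2) /
      (2 * (q - p))] : E 3) = _
  rw [e1, h1]
  have e2 : rad z ^ 2 + (z 2 - p) ^ 2 - (z 2 - p) ^ 2 = rad z ^ 2 := by ring
  rw [e2, Real.sqrt_sq (rad_nonneg z)]

/-- The fourth vertex in the normal position. -/
noncomputable def wt (δ a b : ℝ) (h : a ^ 2 + b ^ 2 = 1) (p q : ℝ) (τ : P3) : E 3 :=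
  act (ru (nu (nv δ a b h p τ)) (nw (nv δ a b h p τ)) (nu_nw _)) (nv δ a b h q τ)

theorem measurable_vec3 {X : Type*} [MeasurableSpace X] {f g k : X → ℝ} (hf : Measurable f)
    (hg : Measurable g) (hk : Measurable k) :
    Measurable (fun x => (!₂[f x, g x, k x] : E 3)) := by
  refine (PiLp.continuous_toLp 2 _).measurable.comp ?_
  refine measurable_pi_iff.2 fun i => ?_
  fin_cases i
  · exact hf
  · exact hg
  · exact hk

theorem measurable_coord {X : Type*} [MeasurableSpace X] {f : X → E 3} (hf : Measurable f)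
    (i : Fin 3) : Measurable (fun x => f x i) :=
  (measurable_pi_apply i).comp ((PiLp.continuous_ofLp 2 _).measurable.comp hf)

theorem nv_cont (δ a b : ℝ) (h : a ^ 2 + b ^ 2 = 1) (p : ℝ) : Continuous (nv δ a b h p) := by
  unfold nv
  exact cont_K_comp δ a b h continuous_snd.neg (cont_rz_comp continuous_fst.fst
    (cont_K_comp δ a b h continuous_fst.snd continuous_const))

theorem rad_meas {X : Type*} [MeasurableSpace X] {f : X → E 3} (hf : Measurable f) :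
    Measurable (fun x => rad (f x)) := by
  unfold rad
  exact (((measurable_coord hf 0).pow_const 2).add ((measurable_coord hf 1).pow_const 2)).sqrt

theorem wt_meas (δ a b : ℝ) (h : a ^ 2 + b ^ 2 = 1) (p q : ℝ) :
    Measurable (wt δ a b h p q) := by
  have hp := (nv_cont δ a b h p).measurable
  have hq := (nv_cont δ a b h q).measurable
  have hr := rad_meas hp
  have hs : MeasurableSet {τ : P3 | rad (nv δ a b h p τ) = 0} :=
    measurableSet_eq_fun hr measurable_const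
  have hu : Measurable (fun τ => nu (nv δ a b h p τ)) := by
    unfold nu
    exact Measurable.ite hs measurable_const ((measurable_coord hp 0).div hr)
  have hv : Measurable (fun τ => nw (nv δ a b h p τ)) := by
    unfold nw
    exact Measurable.ite hs measurable_const ((measurable_coord hp 1).neg.div hr)
  unfold wt
  simp only [act_ru]
  have q0 := measurable_coord hq 0
  have q1 := measurable_coord hq 1
  have q2 := measurable_coord hq 2
  exact measurable_vec3 ((hu.mul q0).sub (hv.mul q1)) ((hv.mul q0).add (hu.mul q1)) q2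

theorem zt_meas (p q : ℝ) : Measurable (zt p q) := by
  unfold zt
  have h1 : Measurable (fun α : ℝ × ℝ => (α.1 - α.2 + q ^ 2 - p ^ 2) / (2 * (q - p))) :=
    (((measurable_fst.sub measurable_snd).add measurable_const).sub measurable_const).div
      measurable_const
  exact measurable_vec3 (measurable_fst.sub ((h1.sub measurable_const).pow_const 2)).sqrt
    measurable_const h1

section shape

variable (δ a b : ℝ) (h : a ^ 2 + b ^ 2 = 1) (p q : ℝ)

theorem dist_nv (u v : ℝ) (τ : P3) :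
    ‖(!₂[0, 0, u] : E 3) - nv δ a b h v τ‖ ^ 2 = dsq δ a b u v τ.1.1 τ.1.2 τ.2 := by
  rw [← dist_rods δ a b h, ← K_dist δ a b h τ.2]
  unfold nv
  rw [K_inv]

theorem Phi_eq (τ : P3) : Phi δ a b p q τ =
    ((‖(!₂[0, 0, p] : E 3) - nv δ a b h p τ‖ ^ 2, ‖(!₂[0, 0, q] : E 3) - nv δ a b h p τ‖ ^ 2),
      ‖(!₂[0, 0, p] : E 3) - wt δ a b h p q τ‖ ^ 2) := by
  have h1 : ‖(!₂[0, 0, p] : E 3) - wt δ a b h p q τ‖ = ‖(!₂[0, 0, p] : E 3) - nv δ a b h q τ‖ := by
    unfold wt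
    rw [← act_dist (ru (nu (nv δ a b h p τ)) (nw (nv δ a b h p τ)) (nu_nw _)) !₂[0, 0, p]
      (nv δ a b h q τ), ru_axis]
  rw [h1, dist_nv, dist_nv, dist_nv]
  rfl

theorem I4_swap {d : ℕ} (k : E d → ℝ) (l : ℝ) (p q r s : E d) :
    I4 k l p q r s = I4 k l r s p q := by
  unfold I4
  refine integral_congr_ae (Eventually.of_forall fun z => ?_)
  exact mul_comm _ _

/-- The four point function in the normal position. -/
theorem I4_norm {k : E 3 → ℝ} (hk : Measurable k) (l : ℝ) (hpq : p ≠ q) (τ : P3) :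
    I4 k l (act (rz τ.1.1) (K δ a b h τ.1.2 !₂[0, 0, p]))
      (act (rz τ.1.1) (K δ a b h τ.1.2 !₂[0, 0, q])) (K δ a b h τ.2 !₂[0, 0, p])
      (K δ a b h τ.2 !₂[0, 0, q]) =
    I4 k l !₂[0, 0, p] !₂[0, 0, q] (zt p q (Phi δ a b p q τ).1) (wt δ a b h p q τ) := by
  have e1 : zt p q (Phi δ a b p q τ).1 =
      act (ru (nu (nv δ a b h p τ)) (nw (nv δ a b h p τ)) (nu_nw _)) (nv δ a b h p τ) := by
    rw [Phi_eq δ a b h p q τ, norm_z]
    exact zt_eq hpq _
  rw [e1, I4_swap k l !₂[0, 0, p]]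
  have e2 := rot_I4 hk l (ru (nu (nv δ a b h p τ)) (nw (nv δ a b h p τ)) (nu_nw _))
    (nv δ a b h p τ) (nv δ a b h q τ) !₂[0, 0, p] !₂[0, 0, q]
  rw [ru_axis, ru_axis] at e2
  unfold wt
  rw [e2]
  rw [← K_I4 hk l δ a b h τ.2 (nv δ a b h p τ)]
  unfold nv
  rw [K_inv, K_inv]

end shape

/-- The average over the three angles is small. -/
theorem ev_J {δ a b p q : ℝ} (h : a ^ 2 + b ^ 2 = 1) (hb : b ≠ 0) (hδ : δ ≠ 0) (hpq : p ≠ q)
    {σ : ℝ} (hσ : 0 < σ) :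
    Ev 3 (fun f g l V => |∫ τ : (ℝ × ℝ) × ℝ, I4 (rr f g) l
      (act (rz τ.1.1) (K δ a b h τ.1.2 !₂[0, 0, p]))
      (act (rz τ.1.1) (K δ a b h τ.1.2 !₂[0, 0, q])) (K δ a b h τ.2 !₂[0, 0, p])
      (K δ a b h τ.2 !₂[0, 0, q]) ∂((muP.prod muP).prod muP)| ≤ σ * V) := by
  have hΦ : ContDiff ℝ 1 (Phi δ a b p q) :=
    (Pool.Agent.H67.Simp3.contDiff_Phi δ a b p q).of_le (by simp)
  have hdet : ∀ᵐ τ : P3, (fderiv ℝ (Phi δ a b p q) τ).det ≠ 0 := by
    filter_upwards [Pool.Agent.H67.Simp3.jac_ae h hb hδ hpq] with τ hτ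
    obtain ⟨L, hL⟩ := hτ
    rw [hL.hasFDerivAt.fderiv]
    exact (LinearEquiv.isUnit_det' L.toLinearEquiv).ne_zero
  have hwc : ∀ τ τ' : P3, (Phi δ a b p q τ).1 = (Phi δ a b p q τ').1 →
      wt δ a b h p q τ = wt δ a b h p q τ' → Phi δ a b p q τ = Phi δ a b p q τ' := by
    intro τ τ' h1 h2
    refine Prod.ext h1 ?_
    rw [Phi_eq δ a b h p q τ, Phi_eq δ a b h p q τ', h2]
  set D : Set P3 := (Set.Ioc 0 (2 * Real.pi) ×ˢ Set.Ioc 0 (2 * Real.pi)) ×ˢ
    Set.Ioc 0 (2 * Real.pi) with hD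
  have hDm : MeasurableSet D := (measurableSet_Ioc.prod measurableSet_Ioc).prod measurableSet_Ioc
  have hK : IsCompact ((Set.Icc 0 (2 * Real.pi) ×ˢ Set.Icc 0 (2 * Real.pi)) ×ˢ
    Set.Icc 0 (2 * Real.pi) : Set P3) := (isCompact_Icc.prod isCompact_Icc).prod isCompact_Icc
  have hDK : D ⊆ ((Set.Icc 0 (2 * Real.pi) ×ˢ Set.Icc 0 (2 * Real.pi)) ×ˢ
      Set.Icc 0 (2 * Real.pi) : Set P3) :=
    Set.prod_mono (Set.prod_mono Set.Ioc_subset_Icc_self Set.Ioc_subset_Icc_self)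
      Set.Ioc_subset_Icc_self
  have hs := slice hΦ (wt_meas δ a b h p q) hwc !₂[0, 0, p] !₂[0, 0, q] (zt_meas p q) hDm hK
    hDK hdet σ hσ
  refine hs.mono ?_
  intro f g l V C ε hg h1
  have e1 : (muP.prod muP).prod muP = (volume : Measure P3).restrict D := by
    rw [hD, Measure.volume_eq_prod, ← Measure.prod_restrict, Measure.volume_eq_prod,
      ← Measure.prod_restrict]
  rw [e1]
  have e2 : ∫ τ : (ℝ × ℝ) × ℝ, I4 (rr f g) l
      (act (rz τ.1.1) (K δ a b h τ.1.2 !₂[0, 0, p]))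
      (act (rz τ.1.1) (K δ a b h τ.1.2 !₂[0, 0, q])) (K δ a b h τ.2 !₂[0, 0, p])
      (K δ a b h τ.2 !₂[0, 0, q]) ∂((volume : Measure P3).restrict D) =
      ∫ τ in D, I4 (rr f g) l !₂[0, 0, p] !₂[0, 0, q] (zt p q (Phi δ a b p q τ).1)
        (wt δ a b h p q τ) :=
    integral_congr_ae (Eventually.of_forall fun τ => I4_norm δ a b h p q (rr_meas hg) l hpq τ)
  rw [e2]
  exact h1

end Pool.Agent.H34.Simp3
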