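import Pool.Agent.H34.Simp3.Asm

/-!
# Assembly: full simplices in dimension three, end
-/

open MeasureTheory Measure Metric Filter Topology
open scoped RealInnerProductSpace

namespace Pool.Agent.H34.Simp3

open Pool.Agent.H16.Simp

/-- The main estimate in the standard position. -/
theorem ev_std {δ a b p q : ℝ} (h : a ^ 2 + b ^ 2 = 1) (hb : b ≠ 0) (hδ : δ ≠ 0) (hpq : p ≠ q)
    (m1 m2 : ℝ) {η : ℝ} (hη : 0 < η) :
    Ev 3 (fun f g l V => |∫ z, (fb f l !₂[δ, m1 * b, m1 * a] z * fb f l !₂[δ, m2 * b, m2 * a] z)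
      * rod f g l !₂[0, 0, p] !₂[0, 0, q] z ∂(muRE 3)| ≤ η * V) := by
  refine (ev_J h hb hδ hpq (show 0 < η ^ 4 by positivity)).mono ?_
  intro f g l V C ε hg hJ
  have hr := rr_meas hg
  set X : ℝ → E 3 := fun t => K δ a b h t !₂[0, 0, p] with hX
  set Y : ℝ → E 3 := fun t => K δ a b h t !₂[0, 0, q] with hY
  set Xs : ℝ → ℝ → E 3 := fun s t => act (rz s) (X t) with hXs
  set Ys : ℝ → ℝ → E 3 := fun s t => act (rz s) (Y t) with hYs
  set F : Rot 3 × E 3 → ℝ := fun z => fb f l !₂[δ, m1 * b, m1 * a] z *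
    fb f l !₂[δ, m2 * b, m2 * a] z with hF
  have X0 : X 0 = !₂[0, 0, p] := K_zero δ a b h _
  have Y0 : Y 0 = !₂[0, 0, q] := K_zero δ a b h _
  have cX : Continuous X := cont_K_comp δ a b h continuous_id continuous_const
  have cY : Continuous Y := cont_K_comp δ a b h continuous_id continuous_const
  have cXs : Continuous (fun x : ℝ × ℝ => Xs x.1 x.2) :=
    cont_rz_comp continuous_fst (cX.comp continuous_snd)
  have cYs : Continuous (fun x : ℝ × ℝ => Ys x.1 x.2) :=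
    cont_rz_comp continuous_fst (cY.comp continuous_snd)
  have hFm : Measurable F := (fb_meas hg.f_meas l _).mul (fb_meas hg.f_meas l _)
  have hF0 : ∀ z, 0 ≤ F z := fun z => mul_nonneg (hg.f0 _ _) (hg.f0 _ _)
  have hFf : ∀ z, F z ≤ fb f l !₂[δ, m1 * b, m1 * a] z := fun z =>
    mul_le_of_le_one_right (hg.f0 _ _) (hg.f1 _ _)
  have hF1 : ∀ z, |F z| ≤ 1 := fun z => by
    rw [abs_of_nonneg (hF0 z)]
    exact (hFf z).trans (hg.f1 _ _)
  have hFsq : ∀ z, F z ^ 2 ≤ fb f l !₂[δ, m1 * b, m1 * a] z := by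
    intro z
    have a1 := hF0 z
    have a2 := hFf z
    have a3 := hg.f1 !₂[δ, m1 * b, m1 * a] z
    nlinarith
  have hF2 : Integrable (fun z => F z ^ 2) (muRE 3) := by
    refine dom_int (hFm.pow_const 2) (fb_int hg.f_int l !₂[δ, m1 * b, m1 * a]) ?_
    intro z
    rw [abs_of_nonneg (sq_nonneg _)]
    exact hFsq z
  have hFV : ∫ z, F z ^ 2 ∂(muRE 3) ≤ V := by
    calc ∫ z, F z ^ 2 ∂(muRE 3) ≤ ∫ z, fb f l !₂[δ, m1 * b, m1 * a] z ∂(muRE 3) :=
          integral_mono hF2 (fb_int hg.f_int l _) hFsq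
      _ = ∫ x, f x := integral_fb hg.f_meas l _
      _ ≤ V := hg.f_mass
  have ha : ∀ t t', I4 (rr f g) l (X t) (Y t) (X t') (Y t') =
      I4 (rr f g) l (X (t - t')) (Y (t - t')) (X 0) (Y 0) := by
    intro t t'
    have e1 : ∀ v : E 3, K δ a b h t' (K δ a b h (t - t') v) = K δ a b h t v := by
      intro v
      rw [K_add, add_sub_cancel]
    have e3 := K_I4 hr l δ a b h t' (X (t - t')) (Y (t - t')) (X 0) (Y 0)
    rw [← e3]
    simp only [hX, hY, e1, K_zero]
  have he : ∀ t, ∫ z, F z * rod f g l (X t) (Y t) z ∂(muRE 3) =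
      ∫ z, F z * rod f g l (X 0) (Y 0) z ∂(muRE 3) := by
    intro t
    rw [X0, Y0]
    have e0 := mp_integral (Kt_mp l δ a b h t)
      (fun z => F z * rod f g l !₂[0, 0, p] !₂[0, 0, q] z)
      (hFm.mul (rod_meas hg _ _))
    rw [← e0]
    refine integral_congr_ae (Eventually.of_forall fun z => ?_)
    simp only [hF, rod, Kt_fb, K_fix, hX, hY]
  have hbb : ∀ s t, I4 (rr f g) l (X t) (Y t) (X 0) (Y 0) =
      I4 (rr f g) l (X 0) (Y 0) (Xs s t) (Ys s t) := by
    intro s t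
    rw [X0, Y0, I4_swap]
    have e1 := rot_I4 hr l (rz s) !₂[0, 0, p] !₂[0, 0, q] (X t) (Y t)
    rw [rz_axis, rz_axis] at e1
    exact e1.symm
  have hc : ∀ s t s' t', I4 (rr f g) l (Xs s t) (Ys s t) (Xs s' t') (Ys s' t') =
      I4 (rr f g) l (Xs (s - s') t) (Ys (s - s') t) (X t') (Y t') := by
    intro s t s' t'
    have e1 := rot_I4 hr l (rz s') (Xs (s - s') t) (Ys (s - s') t) (X t') (Y t')
    rw [← e1]
    have e2 : ∀ v : E 3, act (rz s') (act (rz (s - s')) v) = act (rz s) v := by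
      intro v
      rw [← act_mul, ← rz_add, add_sub_cancel]
    simp only [hXs, hYs, e2]
  have pX : Function.Periodic X (2 * Real.pi) := fun t => K_per δ a b h t _
  have pY : Function.Periodic Y (2 * Real.pi) := fun t => K_per δ a b h t _
  have pXs : ∀ s t, Xs (s + 2 * Real.pi) t = Xs s t := fun s t => by
    simp only [hXs]; rw [rz_per]
  have pYs : ∀ s t, Ys (s + 2 * Real.pi) t = Ys s t := fun s t => by
    simp only [hYs]; rw [rz_per]
  have hJ' : |∫ τ : (ℝ × ℝ) × ℝ, I4 (rr f g) l (Xs τ.1.1 τ.1.2) (Ys τ.1.1 τ.1.2) (X τ.2)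
        (Y τ.2) ∂((muP.prod muP).prod muP)| ≤ η ^ 4 * V := hJ
  have key := chain hg cX.measurable cY.measurable cXs.measurable cYs.measurable pX pY pXs pYs
    hFm hF1 hF2 hFV ha he hbb hc hη hJ'
  rw [X0, Y0] at key
  exact key

/-- The main estimate for every tetrahedron. -/
theorem ev_main {x y s1 s2 : E 3} (hP : AffineIndependent ℝ ![x, y, s1, s2]) {η : ℝ}
    (hη : 0 < η) :
    Ev 3 (fun f g l V => |∫ z, (fb f l s1 z * fb f l s2 z) * rod f g l x y z ∂(muRE 3)| ≤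
      η * V) := by
  obtain ⟨U, t, δ, a, b, p, q, m1, m2, h, hb, hδ, hpq, h1, h2, h3, h4⟩ := frame3 hP
  refine (ev_std h hb hδ hpq m1 m2 hη).mono ?_
  intro f g l V C ε hg H
  rw [← h1, ← h2, ← h3, ← h4] at H
  rw [← mp_integral (mp_flow l U t) (fun z => (fb f l s1 z * fb f l s2 z) *
    rod f g l x y z) (((fb_meas hg.f_meas l _).mul (fb_meas hg.f_meas l _)).mul
      (rod_meas hg _ _))]
  simp only [rod, fb_flow]
  exact H

/-- The count of a tetrahedron. -/
theorem ev_count {x y s1 s2 : E 3} (hP : AffineIndependent ℝ ![x, y, s1, s2]) {σ : ℝ}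
    (hσ : 0 < σ) :
    Ev 3 (fun f g l V => |∫ z, (fb f l s1 z * fb f l s2 z) * (fb f l x z * fb f l y z)
      ∂(muRE 3) - ∫ x, g x ^ 4| ≤ σ * V) := by
  refine ((ev_M2 le_rfl hP (σ / 2) (half_pos hσ)).and (ev_main hP (half_pos hσ))).mono ?_
  intro f g l V C ε hg ⟨h1, h2⟩
  have h3 : |∫ z, (fb f l s1 z * fb f l s2 z) * ((fb f l x z - fb g l x z) *
      (fb f l y z - fb g l y z)) ∂(muRE 3)| ≤ σ / 2 * V := h2
  rw [abs_le] at h1 h3 ⊢
  constructor <;> linarith [h1.1, h1.2, h3.1, h3.2]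

/-- Full simplices in dimension three. -/
theorem main3 (P : Fin (3 + 1) → E 3) (hP : AffineIndependent ℝ P)
    (A : Set (E 3)) (hA : NullMeasurableSet A volume) (hdens : 0 < upperDensity A) :
    ∃ l₀ : ℝ, ∀ l : ℝ, l₀ ≤ l →
      ∃ (x : E 3) (O : E 3 ≃ₗᵢ[ℝ] E 3), ∀ i, x + O (l • P i) ∈ A := by
  refine density_of_count (by norm_num) P ?_ A hA hdens
  intro s hs
  have hP' : AffineIndependent ℝ ![P 0, P 1, P 2, P 3] := by
    have : (![P 0, P 1, P 2, P 3] : Fin 4 → E 3) = P := by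
      funext i
      fin_cases i <;> rfl
    rw [this]
    exact hP
  refine (ev_count hP' hs).mono ?_
  intro f g l V C ε hg h1
  have e1 : ∀ z : Rot 3 × E 3, ∏ i, fb f l (P i) z =
      (fb f l (P 2) z * fb f l (P 3) z) * (fb f l (P 0) z * fb f l (P 1) z) := by
    intro z
    rw [Fin.prod_univ_four]
    ring
  simp_rw [e1]
  exact h1

end Pool.Agent.H34.Simp3
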