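import Mathlib

/-!
# Cauchy-Schwarz and second moments of averages
-/

open MeasureTheory Measure Metric Filter Topology

namespace Pool.Agent.H34.Simp3

theorem mul_int {Z : Type*} [MeasurableSpace Z] {ν : Measure Z} {F D : Z → ℝ}
    (hFm : AEStronglyMeasurable F ν) (hDm : AEStronglyMeasurable D ν)
    (hF : Integrable (fun z => F z ^ 2) ν) (hD : Integrable (fun z => D z ^ 2) ν) :
    Integrable (fun z => F z * D z) ν := by
  refine (hF.add hD).mono' (hFm.mul hDm) (Eventually.of_forall fun z => ?_)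
  rw [Real.norm_eq_abs, abs_le]
  show -(F z ^ 2 + D z ^ 2) ≤ F z * D z ∧ F z * D z ≤ F z ^ 2 + D z ^ 2
  constructor <;> nlinarith [sq_nonneg (F z + D z), sq_nonneg (F z - D z)]

/-- Young's inequality for integrals. -/
theorem young {Z : Type*} [MeasurableSpace Z] {ν : Measure Z} {F D : Z → ℝ} {t : ℝ}
    (ht : 0 < t) (hFm : AEStronglyMeasurable F ν) (hDm : AEStronglyMeasurable D ν)
    (hF : Integrable (fun z => F z ^ 2) ν) (hD : Integrable (fun z => D z ^ 2) ν) :
    |∫ z, F z * D z ∂ν| ≤ (t / 2) * (∫ z, F z ^ 2 ∂ν) + (1 / (2 * t)) * ∫ z, D z ^ 2 ∂ν := by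
  have h1 : ∀ z, |F z * D z| ≤ (t / 2) * F z ^ 2 + (1 / (2 * t)) * D z ^ 2 := by
    intro z
    have h2 : (t / 2) * F z ^ 2 + (1 / (2 * t)) * D z ^ 2 - |F z * D z| =
        (1 / (2 * t)) * (t * |F z| - |D z|) ^ 2 := by
      rw [abs_mul]
      field_simp
      rw [← sq_abs (F z), ← sq_abs (D z)]
      ring
    have h3 : 0 ≤ (1 / (2 * t)) * (t * |F z| - |D z|) ^ 2 := by positivity
    linarith
  calc |∫ z, F z * D z ∂ν| ≤ ∫ z, |F z * D z| ∂ν := abs_integral_le_integral_abs
    _ ≤ ∫ z, ((t / 2) * F z ^ 2 + (1 / (2 * t)) * D z ^ 2) ∂ν := by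
        apply integral_mono (mul_int hFm hDm hF hD).abs
          ((hF.const_mul _).add (hD.const_mul _))
        exact h1
    _ = _ := by
        rw [integral_add (hF.const_mul _) (hD.const_mul _), integral_const_mul,
          integral_const_mul]

/-- Cauchy-Schwarz. -/
theorem csq {Z : Type*} [MeasurableSpace Z] {ν : Measure Z} {F D : Z → ℝ}
    (hFm : AEStronglyMeasurable F ν) (hDm : AEStronglyMeasurable D ν)
    (hF : Integrable (fun z => F z ^ 2) ν) (hD : Integrable (fun z => D z ^ 2) ν) :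
    (∫ z, F z * D z ∂ν) ^ 2 ≤ (∫ z, F z ^ 2 ∂ν) * ∫ z, D z ^ 2 ∂ν := by
  set A := ∫ z, F z ^ 2 ∂ν with hA
  set B := ∫ z, F z * D z ∂ν with hB
  set Q := ∫ z, D z ^ 2 ∂ν with hQ
  have hA0 : 0 ≤ A := integral_nonneg fun z => sq_nonneg _
  have hQ0 : 0 ≤ Q := integral_nonneg fun z => sq_nonneg _
  have hFD := mul_int hFm hDm hF hD
  have key : ∀ x : ℝ, 0 ≤ Q * x ^ 2 - 2 * B * x + A := by
    intro x
    have h1 : ∫ z, (F z - x * D z) ^ 2 ∂ν = Q * x ^ 2 - 2 * B * x + A := by
      have e : (fun z => (F z - x * D z) ^ 2) = fun z =>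
          F z ^ 2 - (2 * x) * (F z * D z) + x ^ 2 * D z ^ 2 := by
        funext z
        ring
      have i1 : Integrable (fun z => (2 * x) * (F z * D z)) ν := hFD.const_mul _
      have i2 : Integrable (fun z => x ^ 2 * D z ^ 2) ν := hD.const_mul _
      have i3 : Integrable (fun z => F z ^ 2 - (2 * x) * (F z * D z)) ν := hF.sub i1
      rw [e, integral_add i3 i2, integral_sub hF i1, integral_const_mul, integral_const_mul]
      rw [← hA, ← hB, ← hQ]
      ring
    rw [← h1]
    exact integral_nonneg fun z => sq_nonneg _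
  rcases hQ0.eq_or_lt with h0 | h0
  · rw [← h0] at key ⊢
    have hB0 : B = 0 := by
      by_contra hne
      have := key ((A + 1) / (2 * B))
      rw [zero_mul, zero_sub] at this
      have e : 2 * B * ((A + 1) / (2 * B)) = A + 1 := by field_simp
      rw [e] at this
      linarith
    rw [hB0]
    simp
  · have := key (B / Q)
    have e : Q * (B / Q) ^ 2 - 2 * B * (B / Q) + A = A - B ^ 2 / Q := by
      field_simp
      ring
    rw [e] at this
    have h2 : B ^ 2 / Q ≤ A := by linarith
    rwa [div_le_iff₀ h0] at h2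

section avg

variable {T : Type*} [MeasurableSpace T] {Z : Type*} [MeasurableSpace Z]
variable {μ : Measure T} [IsFiniteMeasure μ] {ν : Measure Z} [SFinite ν]

/-- The dominated product is integrable. -/
theorem pair_int {p : T → Z → ℝ} (hp : Measurable (Function.uncurry p))
    {c : ℝ} (hc : ∀ t z, |p t z| ≤ c) (hi : Integrable (Function.uncurry p) (μ.prod ν)) :
    Integrable (fun x : (T × T) × Z => p x.1.1 x.2 * p x.1.2 x.2) ((μ.prod μ).prod ν) := by
  have hm1 : Measurable (fun x : (T × T) × Z => p x.1.1 x.2) :=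
    hp.comp (measurable_fst.fst.prodMk measurable_snd)
  have hm2 : Measurable (fun x : (T × T) × Z => p x.1.2 x.2) :=
    hp.comp (measurable_fst.snd.prodMk measurable_snd)
  have h1 : Integrable (fun x : (T × T) × Z => p x.1.1 x.2) ((μ.prod μ).prod ν) := by
    have h2 : Integrable (fun x : T × (T × Z) => p x.2.1 x.2.2) (μ.prod (μ.prod ν)) := by
      exact hi.comp_snd μ
    have h3 : MeasurePreserving (fun x : (T × T) × Z => (x.1.2, (x.1.1, x.2)))
        ((μ.prod μ).prod ν) (μ.prod (μ.prod ν)) := by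
      have h4 : MeasurePreserving (fun x : (T × T) × Z => (Prod.swap x.1, x.2))
          ((μ.prod μ).prod ν) ((μ.prod μ).prod ν) :=
        (measurePreserving_swap (μ := μ) (ν := μ)).prod (MeasurePreserving.id ν)
      have h5 : MeasurePreserving (MeasurableEquiv.prodAssoc : (T × T) × Z ≃ᵐ T × (T × Z))
          ((μ.prod μ).prod ν) (μ.prod (μ.prod ν)) := measurePreserving_prodAssoc μ μ ν
      exact h5.comp h4
    exact h3.integrable_comp_of_integrable h2
  refine (h1.norm.mul_const c).mono' (hm1.mul hm2).aestronglyMeasurable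
    (Eventually.of_forall fun x => ?_)
  rw [norm_mul]
  exact mul_le_mul_of_nonneg_left (hc _ _) (norm_nonneg _)

/-- The second moment of an average. -/
theorem sq_avg {p : T → Z → ℝ} (hp : Measurable (Function.uncurry p))
    {c : ℝ} (hc : ∀ t z, |p t z| ≤ c) (hi : Integrable (Function.uncurry p) (μ.prod ν)) :
    Integrable (fun z => (∫ t, p t z ∂μ) ^ 2) ν ∧
    ∫ z, (∫ t, p t z ∂μ) ^ 2 ∂ν =
      ∫ x : T × T, (∫ z, p x.1 z * p x.2 z ∂ν) ∂(μ.prod μ) := by
  have h0 := pair_int hp hc hi
  have e : ∀ z, (∫ t, p t z ∂μ) ^ 2 = ∫ x : T × T, p x.1 z * p x.2 z ∂(μ.prod μ) := by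
    intro z
    rw [sq, integral_prod_mul (fun t => p t z) (fun t => p t z)]
  constructor
  · simp_rw [e]
    exact h0.integral_prod_right
  · simp_rw [e]
    exact (integral_integral_swap h0).symm

/-- Averages are measurable. -/
theorem avg_meas {p : T → Z → ℝ} (hp : Measurable (Function.uncurry p)) :
    Measurable (fun z => ∫ t, p t z ∂μ) := by
  have h : StronglyMeasurable (Function.uncurry (fun z t => p t z)) :=
    (hp.comp measurable_swap).stronglyMeasurable
  exact h.integral_prod_right.measurable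

/-- Exchange of an average and a bilinear expression. -/
theorem avg_mul {p : T → Z → ℝ} {F : Z → ℝ} (hF : Measurable F)
    (hp : Measurable (Function.uncurry p)) {c : ℝ} (hc : ∀ z, |F z| ≤ c)
    (hi : Integrable (Function.uncurry p) (μ.prod ν)) :
    ∫ t, (∫ z, F z * p t z ∂ν) ∂μ = ∫ z, F z * (∫ t, p t z ∂μ) ∂ν := by
  have h1 : Integrable (Function.uncurry (fun (t : T) (z : Z) => F z * p t z)) (μ.prod ν) := by
    refine (hi.norm.const_mul c).mono'
      ((hF.comp measurable_snd).mul hp).aestronglyMeasurable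
      (Eventually.of_forall fun x => ?_)
    show ‖F x.2 * p x.1 x.2‖ ≤ c * ‖p x.1 x.2‖
    rw [norm_mul]
    exact mul_le_mul_of_nonneg_right (hc _) (norm_nonneg _)
  rw [integral_integral_swap h1]
  refine integral_congr_ae (Eventually.of_forall fun z => ?_)
  exact integral_const_mul _ _

end avg

end Pool.Agent.H34.Simp3
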