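import Mathlib

/-!
# Change of variables on a piece where the map is injective
-/

open MeasureTheory Measure Metric Filter Topology

namespace Pool.Agent.H34.Simp3

/-- The parameter space. -/
abbrev P3 : Type := (ℝ × ℝ) × ℝ

instance : (volume : Measure (ℝ × ℝ)).IsAddHaarMeasure := by
  rw [Measure.volume_eq_prod]
  infer_instance

instance : (volume : Measure P3).IsAddHaarMeasure := by
  rw [Measure.volume_eq_prod]
  infer_instance

/-- The density and the lifted function. -/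
theorem push {Φ : P3 → P3} (hΦ : ContDiff ℝ 1 Φ) {Y : Type*} [MeasurableSpace Y] (y₀ : Y)
    {w : P3 → Y} (hw : Measurable w) {E : Set P3} (hE : MeasurableSet E)
    (hinj : Set.InjOn Φ E) {c : ℝ} (hc : 0 < c) (hdet : ∀ τ ∈ E, c ≤ |(fderiv ℝ Φ τ).det|) :
    ∃ (κ : P3 → ℝ) (w' : P3 → Y), Measurable κ ∧ Measurable w' ∧ (∀ y, 0 ≤ κ y) ∧
      (∀ y, κ y ≤ 1 / c) ∧ (∀ y, κ y ≠ 0 → ∃ τ ∈ E, Φ τ = y ∧ w' y = w τ) ∧
      ∀ h : (ℝ × ℝ) × Y → ℝ,
        ∫ τ in E, h ((Φ τ).1, w τ) = ∫ y, κ y * h (y.1, w' y) := by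
  classical
  set e : E → P3 := E.domRestrict Φ with he
  have hemb : MeasurableEmbedding e :=
    hΦ.continuous.continuousOn.measurableEmbedding hE hinj
  have hdm : Measurable (fun τ : P3 => |(fderiv ℝ Φ τ).det|⁻¹) := by
    have h1 : Continuous (fun τ : P3 => (fderiv ℝ Φ τ).det) :=
      (ContinuousLinearMap.continuous_det).comp (hΦ.continuous_fderiv one_ne_zero)
    exact (h1.abs.measurable).inv
  set κ : P3 → ℝ := Function.extend e (fun τ => |(fderiv ℝ Φ τ.1).det|⁻¹) (fun _ => 0) with hκ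
  set w' : P3 → Y := Function.extend e (fun τ => w τ.1) (fun _ => y₀) with hw'
  have hκm : Measurable κ :=
    hemb.measurable_extend (hdm.comp measurable_subtype_coe) measurable_const
  have hwm : Measurable w' :=
    hemb.measurable_extend (hw.comp measurable_subtype_coe) measurable_const
  have hκ1 : ∀ τ ∈ E, κ (Φ τ) = |(fderiv ℝ Φ τ).det|⁻¹ := by
    intro τ hτ
    exact hemb.injective.extend_apply (fun τ : E => |(fderiv ℝ Φ τ.1).det|⁻¹) (fun _ => 0)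
      ⟨τ, hτ⟩
  have hw1 : ∀ τ ∈ E, w' (Φ τ) = w τ := by
    intro τ hτ
    exact hemb.injective.extend_apply (fun τ : E => w τ.1) (fun _ => y₀) ⟨τ, hτ⟩
  have hκ2 : ∀ y, y ∉ Φ '' E → κ y = 0 := by
    intro y hy
    refine Function.extend_apply' _ _ _ ?_
    rintro ⟨τ, hτ⟩
    exact hy ⟨τ.1, τ.2, hτ⟩
  refine ⟨κ, w', hκm, hwm, ?_, ?_, ?_, ?_⟩
  · intro y
    by_cases hy : y ∈ Φ '' E
    · obtain ⟨τ, hτ, rfl⟩ := hy
      rw [hκ1 τ hτ]
      positivity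
    · rw [hκ2 y hy]
  · intro y
    by_cases hy : y ∈ Φ '' E
    · obtain ⟨τ, hτ, rfl⟩ := hy
      rw [hκ1 τ hτ, ← one_div]
      exact one_div_le_one_div_of_le hc (hdet τ hτ)
    · rw [hκ2 y hy]
      positivity
  · intro y hy
    by_cases hy2 : y ∈ Φ '' E
    · obtain ⟨τ, hτ, rfl⟩ := hy2
      exact ⟨τ, hτ, rfl, hw1 τ hτ⟩
    · exact absurd (hκ2 y hy2) hy
  · intro h
    have h1 : ∫ y, κ y * h (y.1, w' y) = ∫ y in Φ '' E, κ y * h (y.1, w' y) := by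
      symm
      apply setIntegral_eq_integral_of_forall_compl_eq_zero
      intro y hy
      rw [hκ2 y hy, zero_mul]
    rw [h1, integral_image_eq_integral_abs_det_fderiv_smul volume hE
      (f' := fun τ => fderiv ℝ Φ τ)
      (fun τ _ => ((hΦ.differentiable one_ne_zero τ).hasFDerivAt).hasFDerivWithinAt) hinj]
    refine setIntegral_congr_fun hE fun τ hτ => ?_
    show h ((Φ τ).1, w τ) = |(fderiv ℝ Φ τ).det| * (κ (Φ τ) * h ((Φ τ).1, w' (Φ τ)))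
    rw [hκ1 τ hτ, hw1 τ hτ]
    have h2 : |(fderiv ℝ Φ τ).det| ≠ 0 := (lt_of_lt_of_le hc (hdet τ hτ)).ne'
    field_simp

/-- A countable family of good pieces. -/
theorem pieces {Φ : P3 → P3} (hΦ : ContDiff ℝ 1 Φ) :
    ∃ W : ℕ → Set P3, (∀ n, IsOpen (W n)) ∧ (∀ n, Set.InjOn Φ (W n)) ∧
      (∀ n, ∃ c : ℝ, 0 < c ∧ ∀ τ ∈ W n, c ≤ |(fderiv ℝ Φ τ).det|) ∧
      {τ | (fderiv ℝ Φ τ).det ≠ 0} ⊆ ⋃ n, W n := by
  classical
  have hcd : Continuous (fun τ : P3 => |(fderiv ℝ Φ τ).det|) :=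
    ((ContinuousLinearMap.continuous_det).comp (hΦ.continuous_fderiv one_ne_zero)).abs
  have hex : ∀ τ : P3, (fderiv ℝ Φ τ).det ≠ 0 → ∃ O : Set P3, IsOpen O ∧ τ ∈ O ∧
      Set.InjOn Φ O ∧ ∃ c : ℝ, 0 < c ∧ ∀ σ ∈ O, c ≤ |(fderiv ℝ Φ σ).det| := by
    intro τ hτ
    set L : P3 ≃L[ℝ] P3 := (fderiv ℝ Φ τ).toContinuousLinearEquivOfDetNeZero hτ with hL
    have h1 : HasStrictFDerivAt Φ (L : P3 →L[ℝ] P3) τ := by
      have h2 := (hΦ.contDiffAt (x := τ)).hasStrictFDerivAt one_ne_zero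
      exact h2
    set ψ := h1.toOpenPartialHomeomorph Φ with hψ
    have h3 : 0 < |(fderiv ℝ Φ τ).det| := abs_pos.2 hτ
    refine ⟨ψ.source ∩ {σ | |(fderiv ℝ Φ τ).det| / 2 < |(fderiv ℝ Φ σ).det|},
      ψ.open_source.inter (isOpen_lt continuous_const hcd),
      ⟨h1.mem_toOpenPartialHomeomorph_source, ?_⟩, ?_, |(fderiv ℝ Φ τ).det| / 2, half_pos h3,
      fun σ hσ => hσ.2.le⟩
    · show |(fderiv ℝ Φ τ).det| / 2 < |(fderiv ℝ Φ τ).det|
      linarith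
    · intro a ha b hb hab
      exact ψ.injOn ha.1 hb.1 hab
  set U : Set P3 := {τ | (fderiv ℝ Φ τ).det ≠ 0} with hU
  choose! O hO1 hO2 hO3 hO4 using hex
  obtain ⟨t, ht1, ht2, ht3⟩ := TopologicalSpace.countable_cover_nhdsWithin (s := U)
    (f := O) (fun x hx => mem_nhdsWithin_of_mem_nhds ((hO1 x hx).mem_nhds (hO2 x hx)))
  rcases t.eq_empty_or_nonempty with h0 | h0
  · refine ⟨fun _ => ∅, fun _ => isOpen_empty, fun _ => Set.injOn_empty _,
      fun _ => ⟨1, one_pos, fun τ hτ => absurd hτ (Set.notMem_empty _)⟩, ?_⟩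
    intro τ hτ
    have := ht3 hτ
    rw [h0] at this
    simp at this
  · obtain ⟨s, hs⟩ := ht2.exists_eq_range h0
    have hsU : ∀ n, s n ∈ U := fun n => ht1 (by rw [hs]; exact ⟨n, rfl⟩)
    refine ⟨fun n => O (s n), fun n => hO1 _ (hsU n), fun n => hO3 _ (hsU n),
      fun n => hO4 _ (hsU n), ?_⟩
    intro τ hτ
    obtain ⟨x, hx, hx2⟩ := Set.mem_iUnion₂.1 (ht3 hτ)
    rw [hs] at hx
    obtain ⟨n, rfl⟩ := hx
    exact Set.mem_iUnion.2 ⟨n, hx2⟩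

end Pool.Agent.H34.Simp3
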