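import Pool.Agent.H16.Simp4.Cnt
import Pool.Agent.H34.Simp3.Cs

/-!
# The deviation `r = f - g` of a set from its local density
-/

open MeasureTheory Measure Metric Filter Topology
open scoped RealInnerProductSpace

namespace Pool.Agent.H34.Simp3

open Pool.Agent.H16.Simp

variable {d : ℕ} {C ε : ℝ} {f g : E d → ℝ} {l V : ℝ}

/-- The deviation. -/
noncomputable def rr (f g : E d → ℝ) : E d → ℝ := fun x => f x - g x

theorem rr_meas (h : Good d C ε f g l V) : Measurable (rr f g) := h.f_meas.sub h.g_meas

theorem rr_abs (h : Good d C ε f g l V) (x : E d) : |rr f g x| ≤ 1 := by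
  unfold rr
  rw [abs_le]
  constructor
  · linarith [h.f_nonneg x, h.g_le_one x]
  · linarith [h.f_le_one x, h.g_nonneg x]

theorem rr_int (h : Good d C ε f g l V) : Integrable (rr f g) := h.f_int.sub h.g_int

theorem fbr_abs (h : Good d C ε f g l V) (p : E d) (z : Rot d × E d) :
    |fb (rr f g) l p z| ≤ 1 := rr_abs h _

theorem fbr_meas (h : Good d C ε f g l V) (p : E d) : Measurable (fb (rr f g) l p) :=
  fb_meas (rr_meas h) l p

theorem fbr_int (h : Good d C ε f g l V) (p : E d) : Integrable (fb (rr f g) l p) (muRE d) :=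
  fb_int (rr_int h) l p

theorem fbr_sq_int (h : Good d C ε f g l V) (p : E d) :
    Integrable (fun z => fb (rr f g) l p z ^ 2) (muRE d) := by
  refine dom_int (G := fun z => ‖fb (rr f g) l p z‖) ((fbr_meas h p).pow_const 2)
    (fbr_int h p).norm ?_
  intro z
  have h1 := fbr_abs h p z
  rw [Real.norm_eq_abs, abs_pow, sq]
  exact mul_le_of_le_one_left (abs_nonneg _) h1

theorem fbr_mul_int (h : Good d C ε f g l V) (p q : E d) :
    Integrable (fun z => fb (rr f g) l p z * fb (rr f g) l q z) (muRE d) :=
  mul_int (fbr_meas h p).aestronglyMeasurable (fbr_meas h q).aestronglyMeasurable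
    (fbr_sq_int h p) (fbr_sq_int h q)

/-- The norm of the deviation. -/
theorem fbr_sq (h : Good d C ε f g l V) (p : E d) :
    ∫ z, fb (rr f g) l p z ^ 2 ∂(muRE d) ≤ 2 * V := by
  have h1 : ∫ z, fb (rr f g) l p z ^ 2 ∂(muRE d) = ∫ x, rr f g x ^ 2 := by
    rw [← integral_snd (fun x => rr f g x ^ 2)]
    exact integral_shift l p (fun z => rr f g z.2 ^ 2)
      (((rr_meas h).comp measurable_snd).pow_const 2)
  rw [h1]
  calc ∫ x, rr f g x ^ 2 ≤ ∫ x, (f x + g x) := by
        apply integral_mono_of_nonneg
        · exact Eventually.of_forall fun x => sq_nonneg _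
        · exact h.f_int.add h.g_int
        · refine Eventually.of_forall fun x => ?_
          show (f x - g x) ^ 2 ≤ f x + g x
          have a1 := h.f_nonneg x
          have a2 := h.f_le_one x
          have a3 := h.g_nonneg x
          have a4 := h.g_le_one x
          nlinarith [mul_nonneg a1 a3]
    _ = (∫ x, f x) + ∫ x, g x := integral_add h.f_int h.g_int
    _ ≤ 2 * V := by
        rw [h.int_eq]
        linarith [h.f_mass]

/-- The correlation of the deviations at two points at a bounded distance. -/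
theorem fbr_corr (h : Good d C ε f g l V) {p q : E d} (h1 : 1 / C ≤ ‖p - q‖)
    (h2 : ‖p - q‖ ≤ C) :
    ∫ z, fb (rr f g) l p z * fb (rr f g) l q z ∂(muRE d) ≤ 3 * ε * V := by
  obtain ⟨Q, hQ, hcorr⟩ := h.corr
  have hfm := fun b => fb_meas h.f_meas l b
  have hgm := fun b => fb_meas h.g_meas l b
  have iff' := fun b b' => h.ff_int b b'
  have ig : ∀ (k : E d → ℝ), Measurable k → (∀ x, |k x| ≤ 1) → ∀ b b',
      Integrable (fun z => fb k l b z * fb g l b' z) (muRE d) := by
    intro k hk hk1 b b'
    refine dom_int (G := fb g l b') ((fb_meas hk l b).mul (hgm b')) (fb_int h.g_int l b') ?_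
    intro z
    rw [abs_mul, abs_of_nonneg (h.g0 b' z)]
    exact mul_le_of_le_one_left (h.g0 _ _) (hk1 _)
  have hf1 : ∀ x, |f x| ≤ 1 := fun x => by
    rw [abs_of_nonneg (h.f_nonneg x)]; exact h.f_le_one x
  have hg1 : ∀ x, |g x| ≤ 1 := fun x => by
    rw [abs_of_nonneg (h.g_nonneg x)]; exact h.g_le_one x
  have i1 := ig f h.f_meas hf1 p q
  have i2 : Integrable (fun z => fb g l p z * fb f l q z) (muRE d) := by
    have := ig f h.f_meas hf1 q p
    refine this.congr (Eventually.of_forall fun z => ?_)
    exact mul_comm _ _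
  have i3 := ig g h.g_meas hg1 p q
  have e : (fun z => fb (rr f g) l p z * fb (rr f g) l q z) = fun z =>
      fb f l p z * fb f l q z - fb f l p z * fb g l q z - fb g l p z * fb f l q z +
        fb g l p z * fb g l q z := by
    funext z
    unfold fb rr
    ring
  have j1 : Integrable (fun z => fb f l p z * fb f l q z - fb f l p z * fb g l q z)
      (muRE d) := (iff' p q).sub i1
  have j2 : Integrable (fun z => fb f l p z * fb f l q z - fb f l p z * fb g l q z -
      fb g l p z * fb f l q z) (muRE d) := j1.sub i2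
  rw [e, integral_add j2 i3, integral_sub j1 i2, integral_sub (iff' p q) i1]
  -- the four terms
  have t1 : ∫ z, fb f l p z * fb f l q z ∂(muRE d) ≤ Q + ε * V := by
    rw [h.ff]
    have := (hcorr (p - q) h1 h2).1
    rw [abs_le] at this
    linarith [this.2]
  have fgs : ∀ b b' : E d, ∫ z, fb f l b z * fb g l b' z ∂(muRE d) =
      ∫ R, (∫ x, f (x + l • act R (b - b')) * g x) ∂(rotHaar d) := by
    intro b b'
    rw [← h.fg]
    have h3 := integral_shift l b' (fun z => f (z.2 + l • act z.1 (b - b')) * g z.2)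
      ((fb_meas h.f_meas l (b - b')).mul (h.g_meas.comp measurable_snd))
    have h4 : ∀ z : Rot d × E d, fb f l b z * fb g l b' z =
        (fun z : Rot d × E d => f (z.2 + l • act z.1 (b - b')) * g z.2)
          (z.1, z.2 + l • act z.1 b') := by
      intro z
      simp only [fb, act_sub, smul_sub]
      congr 2
      abel
    simp_rw [h4]
    rw [h3]
    rfl
  have t2 : Q - ε * V ≤ ∫ z, fb f l p z * fb g l q z ∂(muRE d) := by
    rw [fgs]
    have := (hcorr (p - q) h1 h2).2
    rw [abs_le] at this
    linarith [this.1]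
  have t3 : Q - ε * V ≤ ∫ z, fb g l p z * fb f l q z ∂(muRE d) := by
    have e3 : ∫ z, fb g l p z * fb f l q z ∂(muRE d) = ∫ z, fb f l q z * fb g l p z ∂(muRE d) :=
      integral_congr_ae (Eventually.of_forall fun z => mul_comm _ _)
    rw [e3, fgs]
    have := (hcorr (q - p) (by rwa [norm_sub_rev]) (by rwa [norm_sub_rev])).2
    rw [abs_le] at this
    linarith [this.1]
  have t4 : ∫ z, fb g l p z * fb g l q z ∂(muRE d) ≤ Q := by
    have gsq : ∀ b : E d, ∫ z, fb g l b z ^ 2 ∂(muRE d) ≤ Q := by
      intro b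
      have : ∫ z, fb g l b z ^ 2 ∂(muRE d) = ∫ x, g x ^ 2 := by
        rw [← integral_snd (fun x => g x ^ 2)]
        exact integral_shift l b (fun z => g z.2 ^ 2) ((h.g_meas.comp measurable_snd).pow_const 2)
      rw [this]
      exact hQ
    have gsi : ∀ b : E d, Integrable (fun z => fb g l b z ^ 2) (muRE d) := by
      intro b
      have := ig g h.g_meas hg1 b b
      simpa [sq] using this
    calc ∫ z, fb g l p z * fb g l q z ∂(muRE d) ≤
        ∫ z, ((1 / 2) * fb g l p z ^ 2 + (1 / 2) * fb g l q z ^ 2) ∂(muRE d) := by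
          apply integral_mono i3 (((gsi p).const_mul _).add ((gsi q).const_mul _))
          intro z
          show fb g l p z * fb g l q z ≤ (1 / 2) * fb g l p z ^ 2 + (1 / 2) * fb g l q z ^ 2
          nlinarith [sq_nonneg (fb g l p z - fb g l q z)]
      _ = (1 / 2) * (∫ z, fb g l p z ^ 2 ∂(muRE d)) +
          (1 / 2) * ∫ z, fb g l q z ^ 2 ∂(muRE d) := by
          rw [integral_add ((gsi p).const_mul _) ((gsi q).const_mul _), integral_const_mul,
            integral_const_mul]
      _ ≤ Q := by linarith [gsq p, gsq q]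
  linarith

/-- The trivial bound. -/
theorem fbr_triv (h : Good d C ε f g l V) (p q : E d) :
    ∫ z, fb (rr f g) l p z * fb (rr f g) l q z ∂(muRE d) ≤ 2 * V := by
  calc ∫ z, fb (rr f g) l p z * fb (rr f g) l q z ∂(muRE d) ≤
      ∫ z, ((1 / 2) * fb (rr f g) l p z ^ 2 + (1 / 2) * fb (rr f g) l q z ^ 2) ∂(muRE d) := by
        apply integral_mono (fbr_mul_int h p q)
          (((fbr_sq_int h p).const_mul _).add ((fbr_sq_int h q).const_mul _))
        intro z
        show fb (rr f g) l p z * fb (rr f g) l q z ≤ (1 / 2) * fb (rr f g) l p z ^ 2 +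
          (1 / 2) * fb (rr f g) l q z ^ 2
        nlinarith [sq_nonneg (fb (rr f g) l p z - fb (rr f g) l q z)]
    _ = (1 / 2) * (∫ z, fb (rr f g) l p z ^ 2 ∂(muRE d)) +
        (1 / 2) * ∫ z, fb (rr f g) l q z ^ 2 ∂(muRE d) := by
        rw [integral_add ((fbr_sq_int h p).const_mul _) ((fbr_sq_int h q).const_mul _),
          integral_const_mul, integral_const_mul]
    _ ≤ 2 * V := by linarith [fbr_sq h p, fbr_sq h q]

/-- Joint measurability. -/
theorem fb_joint {T : Type*} [MeasurableSpace T] {k : E d → ℝ} (hk : Measurable k) (l : ℝ)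
    {X : T → E d} (hX : Measurable X) :
    Measurable (fun x : T × (Rot d × E d) => fb k l (X x.1) x.2) := by
  unfold fb
  apply hk.comp
  have h1 : Measurable (fun x : T × (Rot d × E d) => act x.2.1 (X x.1)) :=
    continuous_act.measurable.comp (measurable_snd.fst.prodMk (hX.comp measurable_fst))
  exact measurable_snd.snd.add (h1.const_smul l)

/-- Joint integrability. -/
theorem fb_joint_int {T : Type*} [MeasurableSpace T] {μ : Measure T} [IsFiniteMeasure μ]
    {k : E d → ℝ} (hk : Measurable k) (hki : Integrable k) (l : ℝ)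
    {X : T → E d} (hX : Measurable X) :
    Integrable (fun x : T × (Rot d × E d) => fb k l (X x.1) x.2) (μ.prod (muRE d)) := by
  have hm := fb_joint hk l hX
  rw [integrable_prod_iff hm.aestronglyMeasurable]
  constructor
  · exact Eventually.of_forall fun t => fb_int hki l (X t)
  · have : (fun t : T => ∫ z, ‖fb k l (X t) z‖ ∂(muRE d)) = fun _ => ∫ x, ‖k x‖ := by
      funext t
      exact integral_fb (f := fun x => ‖k x‖) hk.norm l (X t)
    rw [this]
    exact integrable_const _

end Pool.Agent.H34.Simp3
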