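import Pool.Agent.H34.Simp3.Rod
import Pool.Agent.H34.Simp3.Push

/-!
# Averages over the fibres of the shape map
-/

open MeasureTheory Measure Metric Filter Topology
open scoped RealInnerProductSpace

namespace Pool.Agent.H34.Simp3

open Pool.Agent.H16.Simp

variable {d : ℕ}

/-- The interval. -/
noncomputable abbrev muI (M : ℝ) : Measure ℝ := volume.restrict (Set.Icc (-M) M)

/-- The square. -/
noncomputable abbrev muK (M : ℝ) : Measure (ℝ × ℝ) := (muI M).prod (muI M)

/-- The bad triples. -/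
def badSet (κ : P3 → ℝ) (w : P3 → E d) (C : ℝ) : Set ((ℝ × ℝ) × (ℝ × ℝ)) :=
  {x | κ (x.1, x.2.1) ≠ 0 ∧ κ (x.1, x.2.2) ≠ 0 ∧
    ¬ (1 / C ≤ ‖w (x.1, x.2.1) - w (x.1, x.2.2)‖ ∧ ‖w (x.1, x.2.1) - w (x.1, x.2.2)‖ ≤ C)}

/-- The indicator of the bad triples. -/
noncomputable def badF (κ : P3 → ℝ) (w : P3 → E d) (C : ℝ) : (ℝ × ℝ) × (ℝ × ℝ) → ℝ :=
  (badSet κ w C).indicator (fun _ => 1)

theorem badF_meas {κ : P3 → ℝ} {w : P3 → E d} (hκ : Measurable κ) (hw : Measurable w) (C : ℝ) :
    Measurable (badF κ w C) := by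
  apply measurable_const.indicator
  have m1 : Measurable (fun x : (ℝ × ℝ) × (ℝ × ℝ) => (x.1, x.2.1)) :=
    measurable_fst.prodMk measurable_snd.fst
  have m2 : Measurable (fun x : (ℝ × ℝ) × (ℝ × ℝ) => (x.1, x.2.2)) :=
    measurable_fst.prodMk measurable_snd.snd
  have m3 : Measurable (fun x : (ℝ × ℝ) × (ℝ × ℝ) =>
      ‖w (x.1, x.2.1) - w (x.1, x.2.2)‖) := ((hw.comp m1).sub (hw.comp m2)).norm
  have s1 : MeasurableSet {x : (ℝ × ℝ) × (ℝ × ℝ) | κ (x.1, x.2.1) ≠ 0} :=
    (measurableSet_eq_fun (hκ.comp m1) measurable_const).compl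
  have s2 : MeasurableSet {x : (ℝ × ℝ) × (ℝ × ℝ) | κ (x.1, x.2.2) ≠ 0} :=
    (measurableSet_eq_fun (hκ.comp m2) measurable_const).compl
  have s3 : MeasurableSet {x : (ℝ × ℝ) × (ℝ × ℝ) |
      1 / C ≤ ‖w (x.1, x.2.1) - w (x.1, x.2.2)‖} := measurableSet_le measurable_const m3
  have s4 : MeasurableSet {x : (ℝ × ℝ) × (ℝ × ℝ) |
      ‖w (x.1, x.2.1) - w (x.1, x.2.2)‖ ≤ C} := measurableSet_le m3 measurable_const
  exact s1.inter (s2.inter (s3.inter s4).compl)

theorem badF_bd (κ : P3 → ℝ) (w : P3 → E d) (C : ℝ) (x : (ℝ × ℝ) × (ℝ × ℝ)) :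
    0 ≤ badF κ w C x ∧ badF κ w C x ≤ 1 := by
  unfold badF
  by_cases h : x ∈ badSet κ w C
  · rw [Set.indicator_of_mem h]
    norm_num
  · rw [Set.indicator_of_notMem h]
    norm_num

theorem badF_int {κ : P3 → ℝ} {w : P3 → E d} (hκ : Measurable κ) (hw : Measurable w) (C M : ℝ) :
    Integrable (badF κ w C) ((muK M).prod (muK M)) := by
  refine (integrable_const (1 : ℝ)).mono' (badF_meas hκ hw C).aestronglyMeasurable
    (Eventually.of_forall fun x => ?_)
  rw [Real.norm_of_nonneg (badF_bd κ w C x).1]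
  exact (badF_bd κ w C x).2

theorem diag_null (M : ℝ) : ∀ᵐ x ∂((muK M).prod (muK M)), x.2.1 ≠ x.2.2 := by
  have h1 : ∀ᵐ y ∂(muK M), y.1 ≠ y.2 := by
    have hm : MeasurableSet {y : ℝ × ℝ | ¬ (y.1 ≠ y.2)} := by
      have : {y : ℝ × ℝ | ¬ (y.1 ≠ y.2)} = {y : ℝ × ℝ | y.1 = y.2} := by
        ext y
        simp
      rw [this]
      exact measurableSet_eq_fun measurable_fst measurable_snd
    rw [ae_iff, measure_prod_null hm]
    refine Eventually.of_forall fun x => ?_
    have : Prod.mk x ⁻¹' {y : ℝ × ℝ | ¬ (y.1 ≠ y.2)} = {x} := by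
      ext y
      simp [eq_comm]
    show (muI M) (Prod.mk x ⁻¹' {y : ℝ × ℝ | ¬ (y.1 ≠ y.2)}) = 0
    rw [this]
    exact measure_singleton x
  have h2 : Measure.QuasiMeasurePreserving (Prod.snd : (ℝ × ℝ) × (ℝ × ℝ) → ℝ × ℝ)
      ((muK M).prod (muK M)) (muK M) := quasiMeasurePreserving_snd
  exact h2.ae h1

theorem bad_tendsto {κ : P3 → ℝ} {w : P3 → E d} (hκ : Measurable κ) (hw : Measurable w) (M : ℝ)
    (hsep : ∀ α c c', κ (α, c) ≠ 0 → κ (α, c') ≠ 0 → w (α, c) = w (α, c') → c = c') :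
    Tendsto (fun m : ℕ => ∫ x, badF κ w (m : ℝ) x ∂((muK M).prod (muK M))) atTop (𝓝 0) := by
  have h0 : (0 : ℝ) = ∫ _x : (ℝ × ℝ) × (ℝ × ℝ), (0 : ℝ) ∂((muK M).prod (muK M)) := by simp
  rw [h0]
  refine tendsto_integral_of_dominated_convergence (fun _ => (1 : ℝ))
    (fun m => (badF_meas hκ hw m).aestronglyMeasurable) (integrable_const _) ?_ ?_
  · intro m
    refine Eventually.of_forall fun x => ?_
    rw [Real.norm_of_nonneg (badF_bd κ w m x).1]
    exact (badF_bd κ w m x).2
  · filter_upwards [diag_null M] with x hx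
    apply tendsto_const_nhds.congr'
    by_cases h1 : κ (x.1, x.2.1) ≠ 0 ∧ κ (x.1, x.2.2) ≠ 0
    · have h2 : w (x.1, x.2.1) ≠ w (x.1, x.2.2) := fun h => hx (hsep _ _ _ h1.1 h1.2 h)
      have h3 : 0 < ‖w (x.1, x.2.1) - w (x.1, x.2.2)‖ := norm_pos_iff.2 (sub_ne_zero.2 h2)
      have h4 := (tendsto_natCast_atTop_atTop (R := ℝ)).eventually (ev_norm h3)
      filter_upwards [h4] with m hm
      unfold badF
      rw [Set.indicator_of_notMem]
      intro h5
      exact h5.2.2 hm
    · refine Eventually.of_forall fun m => ?_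
      show (0 : ℝ) = badF κ w m x
      unfold badF
      rw [Set.indicator_of_notMem]
      intro h5
      exact h1 ⟨h5.1, h5.2.1⟩

section piece

variable {C ε : ℝ} {f g : E d → ℝ} {l V : ℝ}

theorem i4_bound (h : Good d C ε f g l V) (p q s t : E d) :
    |I4 (rr f g) l p q s t| ≤ 2 * V := by
  unfold I4
  have i1 := fbr_sq_int h p
  calc |∫ z, (fb (rr f g) l p z * fb (rr f g) l q z) * (fb (rr f g) l s z *
      fb (rr f g) l t z) ∂(muRE d)| ≤ ∫ z, |(fb (rr f g) l p z * fb (rr f g) l q z) *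
        (fb (rr f g) l s z * fb (rr f g) l t z)| ∂(muRE d) := abs_integral_le_integral_abs
    _ ≤ ∫ z, ((1 / 2) * fb (rr f g) l p z ^ 2 + (1 / 2) * fb (rr f g) l q z ^ 2) ∂(muRE d) := by
        apply integral_mono_of_nonneg (Eventually.of_forall fun z => abs_nonneg _)
          (((fbr_sq_int h p).const_mul _).add ((fbr_sq_int h q).const_mul _))
        refine Eventually.of_forall fun z => ?_
        show |(fb (rr f g) l p z * fb (rr f g) l q z) * (fb (rr f g) l s z *
          fb (rr f g) l t z)| ≤ (1 / 2) * fb (rr f g) l p z ^ 2 + (1 / 2) * fb (rr f g) l q z ^ 2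
        have a1 : |fb (rr f g) l s z * fb (rr f g) l t z| ≤ 1 := by
          rw [abs_mul]
          exact mul_le_one₀ (fbr_abs h s z) (abs_nonneg _) (fbr_abs h t z)
        rw [abs_mul]
        calc _ ≤ |fb (rr f g) l p z * fb (rr f g) l q z| * 1 :=
              mul_le_mul_of_nonneg_left a1 (abs_nonneg _)
          _ ≤ _ := by
              rw [mul_one, abs_le]
              constructor <;> nlinarith [sq_nonneg (fb (rr f g) l p z - fb (rr f g) l q z),
                sq_nonneg (fb (rr f g) l p z + fb (rr f g) l q z)]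
    _ = (1 / 2) * (∫ z, fb (rr f g) l p z ^ 2 ∂(muRE d)) +
        (1 / 2) * ∫ z, fb (rr f g) l q z ^ 2 ∂(muRE d) := by
        rw [integral_add ((fbr_sq_int h p).const_mul _) ((fbr_sq_int h q).const_mul _),
          integral_const_mul, integral_const_mul]
    _ ≤ 2 * V := by linarith [fbr_sq h p, fbr_sq h q]

/-- Measurability of the four point function in a parameter. -/
theorem i4_meas (h : Good d C ε f g l V) {T : Type*} [MeasurableSpace T] {p q s t : T → E d}
    (hp : Measurable p) (hq : Measurable q) (hs : Measurable s) (ht : Measurable t) :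
    Measurable (fun x => I4 (rr f g) l (p x) (q x) (s x) (t x)) := by
  have hr := rr_meas h
  have h1 : StronglyMeasurable (Function.uncurry (fun (x : T) (z : Rot d × E d) =>
      (fb (rr f g) l (p x) z * fb (rr f g) l (q x) z) *
        (fb (rr f g) l (s x) z * fb (rr f g) l (t x) z))) := by
    apply Measurable.stronglyMeasurable
    exact ((fb_joint hr l hp).mul (fb_joint hr l hq)).mul
      ((fb_joint hr l hs).mul (fb_joint hr l ht))
  exact h1.integral_prod_right.measurable

/-- The estimate for a fixed base triangle. -/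
theorem row_bound (h : Good d C ε f g l V) (hε : 0 ≤ ε) (M : ℝ) {κ : P3 → ℝ} {w : P3 → E d}
    (hκm : Measurable κ) (hw : Measurable w) (hκ0 : ∀ y, 0 ≤ κ y) {k : ℝ} (hk : ∀ y, κ y ≤ k)
    (p q s : E d) (α : ℝ × ℝ) {t : ℝ} (ht : 0 < t) :
    |∫ c, κ (α, c) * I4 (rr f g) l p q s (w (α, c)) ∂(muI M)| ≤
      (t / 2) * (2 * V) + (1 / (2 * t)) * (∫ x, k ^ 2 * (3 * ε * V + 2 * V * badF κ w C (α, x))
        ∂(muK M)) := by
  have hr := rr_meas h
  have hV := h.V_pos
  have hk0 : 0 ≤ k := (hκ0 (α, 0)).trans (hk (α, 0))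
  set P : ℝ → Rot d × E d → ℝ := fun c z => κ (α, c) * fb (rr f g) l (w (α, c)) z with hP
  have hwα : Measurable (fun c : ℝ => w (α, c)) := hw.comp measurable_prodMk_left
  have hκα : Measurable (fun c : ℝ => κ (α, c)) := hκm.comp measurable_prodMk_left
  have hPm : Measurable (Function.uncurry P) := by
    have m1 := fb_joint hr l hwα
    have m2 : Measurable (fun x : ℝ × (Rot d × E d) => κ (α, x.1)) :=
      hκα.comp measurable_fst
    exact m2.mul m1
  have hPc : ∀ c z, |P c z| ≤ k := by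
    intro c z
    simp only [hP]
    rw [abs_mul, abs_of_nonneg (hκ0 _)]
    calc _ ≤ k * 1 := mul_le_mul (hk _) (fbr_abs h _ z) (abs_nonneg _) hk0
      _ = k := mul_one k
  have hPi : Integrable (Function.uncurry P) ((muI M).prod (muRE d)) := by
    have h1 := fb_joint_int (μ := muI M) hr (rr_int h) l hwα
    refine (h1.norm.const_mul k).mono' hPm.aestronglyMeasurable
      (Eventually.of_forall fun x => ?_)
    show ‖κ (α, x.1) * fb (rr f g) l (w (α, x.1)) x.2‖ ≤ k * ‖fb (rr f g) l (w (α, x.1)) x.2‖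
    rw [norm_mul, Real.norm_of_nonneg (hκ0 _)]
    exact mul_le_mul_of_nonneg_right (hk _) (norm_nonneg _)
  set F : Rot d × E d → ℝ := fun z => fb (rr f g) l p z * fb (rr f g) l q z *
    fb (rr f g) l s z with hF
  have hFm : Measurable F := ((fbr_meas h p).mul (fbr_meas h q)).mul (fbr_meas h s)
  have hF1 : ∀ z, |F z| ≤ 1 := by
    intro z
    simp only [hF]
    rw [abs_mul, abs_mul]
    exact mul_le_one₀ (mul_le_one₀ (fbr_abs h p z) (abs_nonneg _) (fbr_abs h q z))
      (abs_nonneg _) (fbr_abs h s z)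
  have hFp : ∀ z, F z ^ 2 ≤ fb (rr f g) l p z ^ 2 := by
    intro z
    simp only [hF]
    rw [mul_assoc, mul_pow]
    refine mul_le_of_le_one_right (sq_nonneg _) ?_
    have : |fb (rr f g) l q z * fb (rr f g) l s z| ≤ 1 := by
      rw [abs_mul]
      exact mul_le_one₀ (fbr_abs h q z) (abs_nonneg _) (fbr_abs h s z)
    rw [← sq_abs]
    exact pow_le_one₀ (abs_nonneg _) this
  have hF2 : Integrable (fun z => F z ^ 2) (muRE d) := by
    refine dom_int (hFm.pow_const 2) (fbr_sq_int h p) ?_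
    intro z
    rw [abs_of_nonneg (sq_nonneg _)]
    exact hFp z
  have hFV : ∫ z, F z ^ 2 ∂(muRE d) ≤ 2 * V :=
    (integral_mono hF2 (fbr_sq_int h p) hFp).trans (fbr_sq h p)
  obtain ⟨hD2, hDe⟩ := sq_avg (μ := muI M) (ν := muRE d) hPm hPc hPi
  have e1 : ∫ c, κ (α, c) * I4 (rr f g) l p q s (w (α, c)) ∂(muI M) =
      ∫ z, F z * (∫ c, P c z ∂(muI M)) ∂(muRE d) := by
    rw [← avg_mul hFm hPm hF1 hPi]
    refine integral_congr_ae (Eventually.of_forall fun c => ?_)
    show κ (α, c) * I4 (rr f g) l p q s (w (α, c)) = ∫ z, F z * P c z ∂(muRE d)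
    unfold I4
    rw [← integral_const_mul]
    refine integral_congr_ae (Eventually.of_forall fun z => ?_)
    simp only [hF, hP]
    ring
  have hy := young ht hFm.aestronglyMeasurable
    (avg_meas (μ := muI M) hPm).aestronglyMeasurable hF2 hD2
  rw [← e1] at hy
  have hlast : ∫ x : ℝ × ℝ, (∫ z, P x.1 z * P x.2 z ∂(muRE d)) ∂((muI M).prod (muI M)) ≤
      ∫ x, k ^ 2 * (3 * ε * V + 2 * V * badF κ w C (α, x)) ∂(muK M) := by
    have i0 := (pair_int (μ := muI M) (ν := muRE d) hPm hPc hPi).integral_prod_left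
    apply integral_mono i0
    · have hb : Measurable (fun x : ℝ × ℝ => badF κ w C (α, x)) :=
        (badF_meas hκm hw C).comp measurable_prodMk_left
      refine Integrable.const_mul ?_ _
      refine (integrable_const _).add (Integrable.const_mul ?_ _)
      refine (integrable_const (1 : ℝ)).mono' hb.aestronglyMeasurable
        (Eventually.of_forall fun x => ?_)
      rw [Real.norm_of_nonneg (badF_bd κ w C _).1]
      exact (badF_bd κ w C _).2
    · intro x
      show ∫ z, P x.1 z * P x.2 z ∂(muRE d) ≤ k ^ 2 * (3 * ε * V + 2 * V * badF κ w C (α, x))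
      have e2 : ∫ z, P x.1 z * P x.2 z ∂(muRE d) = (κ (α, x.1) * κ (α, x.2)) *
          ∫ z, fb (rr f g) l (w (α, x.1)) z * fb (rr f g) l (w (α, x.2)) z ∂(muRE d) := by
        rw [← integral_const_mul]
        refine integral_congr_ae (Eventually.of_forall fun z => ?_)
        simp only [hP]
        ring
      rw [e2]
      have k0 : 0 ≤ κ (α, x.1) * κ (α, x.2) := mul_nonneg (hκ0 _) (hκ0 _)
      have k1 : κ (α, x.1) * κ (α, x.2) ≤ k ^ 2 := by
        rw [sq]
        exact mul_le_mul (hk _) (hk _) (hκ0 _) hk0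
      have hb0 := (badF_bd κ w C (α, x)).1
      have hnn : 0 ≤ 3 * ε * V + 2 * V * badF κ w C (α, x) := by positivity
      by_cases hbad : (α, x) ∈ badSet κ w C
      · have hb1 : badF κ w C (α, x) = 1 := by
          unfold badF
          rw [Set.indicator_of_mem hbad]
        have := fbr_triv h (w (α, x.1)) (w (α, x.2))
        calc _ ≤ (κ (α, x.1) * κ (α, x.2)) * (3 * ε * V + 2 * V * badF κ w C (α, x)) := by
              apply mul_le_mul_of_nonneg_left _ k0
              rw [hb1]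
              have : 0 ≤ 3 * ε * V := by positivity
              linarith
          _ ≤ _ := mul_le_mul_of_nonneg_right k1 hnn
      · by_cases hz : κ (α, x.1) * κ (α, x.2) = 0
        · rw [hz, zero_mul]
          positivity
        · have hz1 : κ (α, x.1) ≠ 0 := left_ne_zero_of_mul hz
          have hz2 : κ (α, x.2) ≠ 0 := right_ne_zero_of_mul hz
          have hgood : 1 / C ≤ ‖w (α, x.1) - w (α, x.2)‖ ∧ ‖w (α, x.1) - w (α, x.2)‖ ≤ C := by
            by_contra hcon
            exact hbad ⟨hz1, hz2, hcon⟩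
          have := fbr_corr h hgood.1 hgood.2
          calc _ ≤ (κ (α, x.1) * κ (α, x.2)) * (3 * ε * V + 2 * V * badF κ w C (α, x)) := by
                apply mul_le_mul_of_nonneg_left _ k0
                have : 0 ≤ 2 * V * badF κ w C (α, x) := by positivity
                linarith
            _ ≤ _ := mul_le_mul_of_nonneg_right k1 hnn
  rw [hDe] at hy
  refine hy.trans ?_
  have h5 : (t / 2) * (∫ z, F z ^ 2 ∂(muRE d)) ≤ (t / 2) * (2 * V) :=
    mul_le_mul_of_nonneg_left hFV (by positivity)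
  have h6 := mul_le_mul_of_nonneg_left hlast (show (0 : ℝ) ≤ 1 / (2 * t) by positivity)
  exact add_le_add h5 h6

end piece

end Pool.Agent.H34.Simp3
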