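import Pool.Agent.H34.Simp3.Slice

/-!
# Averages over the fibres of the shape map: the limit
-/

open MeasureTheory Measure Metric Filter Topology
open scoped RealInnerProductSpace

namespace Pool.Agent.H34.Simp3

open Pool.Agent.H16.Simp

variable {d : ℕ}

theorem total_bound {C ε : ℝ} {f g : E d → ℝ} {l V : ℝ} (h : Good d C ε f g l V) (hε : 0 ≤ ε)
    (M : ℝ) {κ : P3 → ℝ} {w : P3 → E d}
    (hκm : Measurable κ) (hw : Measurable w) (hκ0 : ∀ y, 0 ≤ κ y) {k : ℝ} (hk : ∀ y, κ y ≤ k)
    (hbox : ∀ y, κ y ≠ 0 → (y.1.1 ∈ Set.Icc (-M) M ∧ y.1.2 ∈ Set.Icc (-M) M) ∧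
      y.2 ∈ Set.Icc (-M) M)
    (p q : E d) {s : ℝ × ℝ → E d} (hs : Measurable s) {t : ℝ} (ht : 0 < t) :
    |∫ y, κ y * I4 (rr f g) l p q (s y.1) (w y)| ≤
      (muK M).real Set.univ * ((t / 2) * (2 * V)) + (1 / (2 * t)) * (k ^ 2 *
        (((muK M).prod (muK M)).real Set.univ * (3 * ε * V) +
          2 * V * ∫ x, badF κ w C x ∂((muK M).prod (muK M)))) := by
  have hV := h.V_pos
  set G : P3 → ℝ := fun y => κ y * I4 (rr f g) l p q (s y.1) (w y) with hG
  have hGm : Measurable G :=
    hκm.mul (i4_meas h measurable_const measurable_const (hs.comp measurable_fst) hw)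
  have hGb : ∀ y, |G y| ≤ k * (2 * V) := by
    intro y
    simp only [hG]
    rw [abs_mul, abs_of_nonneg (hκ0 y)]
    exact mul_le_mul (hk y) (i4_bound h _ _ _ _) (abs_nonneg _) ((hκ0 y).trans (hk y))
  have e1 : ∫ y, G y = ∫ y, G y ∂((muK M).prod (muI M)) := by
    have e2 : (muK M).prod (muI M) = (volume : Measure P3).restrict
        ((Set.Icc (-M) M ×ˢ Set.Icc (-M) M) ×ˢ Set.Icc (-M) M) := by
      rw [Measure.volume_eq_prod, ← Measure.prod_restrict, Measure.volume_eq_prod,
        ← Measure.prod_restrict]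
    rw [e2]
    symm
    apply setIntegral_eq_integral_of_forall_compl_eq_zero
    intro y hy
    simp only [hG]
    by_cases h0 : κ y = 0
    · rw [h0, zero_mul]
    · exact absurd (hbox y h0) hy
  have hGi : Integrable G ((muK M).prod (muI M)) := by
    refine (integrable_const (k * (2 * V))).mono' hGm.aestronglyMeasurable
      (Eventually.of_forall fun y => ?_)
    exact hGb y
  have hbi := badF_int hκm hw C M
  have hb1 : Integrable (fun α : ℝ × ℝ => ∫ x, badF κ w C (α, x) ∂(muK M)) (muK M) :=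
    hbi.integral_prod_left
  have hb2 : Integrable (fun α : ℝ × ℝ => 2 * V * ∫ x, badF κ w C (α, x) ∂(muK M)) (muK M) :=
    hb1.const_mul _
  have hb3 : Integrable (fun α : ℝ × ℝ => (muK M).real Set.univ * (3 * ε * V) +
      2 * V * ∫ x, badF κ w C (α, x) ∂(muK M)) (muK M) := (integrable_const _).add hb2
  have hb4 : Integrable (fun α : ℝ × ℝ => (1 / (2 * t)) * (k ^ 2 * ((muK M).real Set.univ *
      (3 * ε * V) + 2 * V * ∫ x, badF κ w C (α, x) ∂(muK M)))) (muK M) :=
    (hb3.const_mul _).const_mul _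
  have e3 : ∀ α : ℝ × ℝ, ∫ x, k ^ 2 * (3 * ε * V + 2 * V * badF κ w C (α, x)) ∂(muK M) =
      k ^ 2 * ((muK M).real Set.univ * (3 * ε * V) +
        2 * V * ∫ x, badF κ w C (α, x) ∂(muK M)) := by
    intro α
    have hb : Integrable (fun x : ℝ × ℝ => badF κ w C (α, x)) (muK M) := by
      refine (integrable_const (1 : ℝ)).mono'
        ((badF_meas hκm hw C).comp measurable_prodMk_left).aestronglyMeasurable
        (Eventually.of_forall fun x => ?_)
      rw [Real.norm_of_nonneg (badF_bd κ w C _).1]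
      exact (badF_bd κ w C _).2
    rw [integral_const_mul, integral_add (integrable_const _) (hb.const_mul _),
      integral_const, integral_const_mul, smul_eq_mul]
  show |∫ y, G y| ≤ _
  rw [e1, integral_prod _ hGi]
  calc |∫ α, (∫ c, G (α, c) ∂(muI M)) ∂(muK M)| ≤ ∫ α, |∫ c, G (α, c) ∂(muI M)| ∂(muK M) :=
        abs_integral_le_integral_abs
    _ ≤ ∫ α, ((t / 2) * (2 * V) + (1 / (2 * t)) * (k ^ 2 * ((muK M).real Set.univ *
          (3 * ε * V) + 2 * V * ∫ x, badF κ w C (α, x) ∂(muK M)))) ∂(muK M) := by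
        apply integral_mono_of_nonneg (Eventually.of_forall fun α => abs_nonneg _)
        · exact (integrable_const _).add hb4
        · refine Eventually.of_forall fun α => ?_
          have := row_bound h hε M hκm hw hκ0 hk p q (s α) α ht
          rw [e3 α] at this
          exact this
    _ = _ := by
        rw [integral_add (integrable_const _) hb4,
          integral_const, integral_const_mul, integral_const_mul,
          integral_add (integrable_const _) hb2, integral_const,
          integral_const_mul, ← integral_prod _ hbi]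
        have e4 : ((muK M).prod (muK M)).real Set.univ =
            (muK M).real Set.univ * (muK M).real Set.univ := by
          rw [← Set.univ_prod_univ, measureReal_prod_prod]
        rw [e4]
        simp only [smul_eq_mul]
        ring

theorem ev_total {M : ℝ} {κ : P3 → ℝ} {w : P3 → E d}
    (hκm : Measurable κ) (hw : Measurable w) (hκ0 : ∀ y, 0 ≤ κ y) {k : ℝ} (hk : ∀ y, κ y ≤ k)
    (hbox : ∀ y, κ y ≠ 0 → (y.1.1 ∈ Set.Icc (-M) M ∧ y.1.2 ∈ Set.Icc (-M) M) ∧
      y.2 ∈ Set.Icc (-M) M)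
    (hsep : ∀ α c c', κ (α, c) ≠ 0 → κ (α, c') ≠ 0 → w (α, c) = w (α, c') → c = c')
    (p q : E d) {s : ℝ × ℝ → E d} (hs : Measurable s) {σ : ℝ} (hσ : 0 < σ) :
    Ev d (fun f g l V => |∫ y, κ y * I4 (rr f g) l p q (s y.1) (w y)| ≤ σ * V) := by
  have hk0 : 0 ≤ k := (hκ0 0).trans (hk 0)
  set A : ℝ := (muK M).real Set.univ with hA
  set B : ℝ := ((muK M).prod (muK M)).real Set.univ with hB
  have hA0 : 0 ≤ A := measureReal_nonneg
  have hB0 : 0 ≤ B := measureReal_nonneg
  set t : ℝ := σ / (2 * (A + 1)) with ht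
  have ht0 : 0 < t := by positivity
  have hAt : A * t ≤ σ / 2 := by
    rw [ht, mul_div_assoc', div_le_div_iff₀ (by positivity) (by positivity)]
    nlinarith
  -- the choice of `m`
  have h1 := (bad_tendsto hκm hw M hsep).eventually
    (gt_mem_nhds (show (0 : ℝ) < σ * t / (4 * (k ^ 2 + 1)) by positivity))
  obtain ⟨m, hm1, hm2⟩ := (h1.and (eventually_ge_atTop 1)).exists
  set ε : ℝ := σ * t / (6 * (k ^ 2 + 1) * (B + 1)) with hε
  have hε0 : 0 < ε := by positivity
  refine ⟨(m : ℝ), by exact_mod_cast hm2, ε, hε0, ?_⟩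
  intro f g l V h
  have hV := h.V_pos
  have h2 := total_bound h hε0.le M hκm hw hκ0 hk hbox p q hs ht0
  refine h2.trans ?_
  rw [← hA, ← hB]
  set b : ℝ := ∫ x, badF κ w (m : ℝ) x ∂((muK M).prod (muK M)) with hb
  have hb0 : 0 ≤ b := integral_nonneg fun x => (badF_bd κ w _ x).1
  have h3 : A * ((t / 2) * (2 * V)) ≤ (σ / 2) * V := by
    have : A * ((t / 2) * (2 * V)) = (A * t) * V := by ring
    rw [this]
    exact mul_le_mul_of_nonneg_right hAt hV.le
  have h4 : (1 / (2 * t)) * (k ^ 2 * (B * (3 * ε * V) + 2 * V * b)) ≤ (σ / 2) * V := by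
    have e1 : (1 / (2 * t)) * (k ^ 2 * (B * (3 * ε * V) + 2 * V * b)) =
        ((3 * (k ^ 2 * B * ε)) / (2 * t) + (k ^ 2 * b) / t) * V := by
      field_simp
    rw [e1]
    apply mul_le_mul_of_nonneg_right _ hV.le
    have h5 : (3 * (k ^ 2 * B * ε)) / (2 * t) ≤ σ / 4 := by
      rw [div_le_div_iff₀ (by positivity) (by positivity)]
      have h6 : k ^ 2 * B * ε ≤ σ * t / 6 := by
        rw [hε, mul_div_assoc', div_le_div_iff₀ (by positivity) (by positivity)]
        have : 0 ≤ σ * t := by positivity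
        have h7 : k ^ 2 * B ≤ (k ^ 2 + 1) * (B + 1) := by nlinarith [sq_nonneg k]
        nlinarith
      nlinarith
    have h8 : (k ^ 2 * b) / t ≤ σ / 4 := by
      rw [div_le_div_iff₀ ht0 (by positivity)]
      have h9 : b ≤ σ * t / (4 * (k ^ 2 + 1)) := hm1.le
      rw [le_div_iff₀ (by positivity)] at h9
      nlinarith [sq_nonneg k]
    linarith
  linarith

end Pool.Agent.H34.Simp3
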